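import Mathlib

namespace Pool.Agent.H31.ND

/-! Rational points of systems of linear inequalities. -/


open scoped BigOperators

/-- The identity of finitely many real numbers is approximated by a `ℚ`-linear map `ℝ → ℚ` which
fixes `1`. -/
theorem exists_approx (S : Finset ℝ) (ε : ℝ) (hε : 0 < ε) :
    ∃ φ : ℝ →ₗ[ℚ] ℚ, φ 1 = 1 ∧ ∀ x ∈ S, |(φ x : ℝ) - x| < ε := by
  classical
  have hli : LinearIndepOn ℚ id ({1} : Set ℝ) := by
    rw [linearIndepOn_singleton_iff]
    exact one_ne_zero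
  let b := Module.Basis.extend hli
  have h1 : (1 : ℝ) ∈ hli.extend (Set.subset_univ _) :=
    hli.subset_extend _ (Set.mem_singleton 1)
  let i1 : ↥(hli.extend (Set.subset_univ _)) := ⟨1, h1⟩
  have hb : ∀ i, b i = (i : ℝ) := fun i => Module.Basis.extend_apply_self hli i
  -- a bound for the coordinates
  obtain ⟨K, hK0, hK⟩ : ∃ K : ℝ, 0 < K ∧ ∀ x ∈ S,
      ∑ i ∈ (b.repr x).support, |((b.repr x i : ℚ) : ℝ)| ≤ K := by
    refine ⟨1 + ∑ x ∈ S, ∑ i ∈ (b.repr x).support, |((b.repr x i : ℚ) : ℝ)|, ?_, ?_⟩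
    · have : 0 ≤ ∑ x ∈ S, ∑ i ∈ (b.repr x).support, |((b.repr x i : ℚ) : ℝ)| :=
        Finset.sum_nonneg fun x _ => Finset.sum_nonneg fun i _ => abs_nonneg _
      linarith
    · intro x hx
      have := Finset.single_le_sum (f := fun x => ∑ i ∈ (b.repr x).support,
        |((b.repr x i : ℚ) : ℝ)|) (fun y _ => Finset.sum_nonneg fun i _ => abs_nonneg _) hx
      linarith
  have happ : ∀ i : ↥(hli.extend (Set.subset_univ _)), ∃ q : ℚ, |(q : ℝ) - (i : ℝ)| < ε / (2 * K) ∧
      (i = i1 → q = 1) := by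
    intro i
    by_cases hi : i = i1
    · refine ⟨1, ?_, fun _ => rfl⟩
      rw [hi]
      simp only [i1, Rat.cast_one, sub_self, abs_zero]
      positivity
    · obtain ⟨q, hq1, hq2⟩ := exists_rat_btwn (show (i : ℝ) - ε / (2 * K) < (i : ℝ) by
        have : 0 < ε / (2 * K) := by positivity
        linarith)
      refine ⟨q, ?_, fun h => absurd h hi⟩
      rw [abs_lt]
      constructor <;> linarith
  choose q hq hq1 using happ
  let φ : ℝ →ₗ[ℚ] ℚ := b.constr ℚ q
  have hφ : ∀ i : ↥(hli.extend (Set.subset_univ _)), φ (i : ℝ) = q i := by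
    intro i
    rw [← hb i]
    exact b.constr_basis ℚ q i
  refine ⟨φ, ?_, ?_⟩
  · have := hφ i1
    rw [hq1 i1 rfl] at this
    exact this
  · intro x hx
    have hx1 : x = ∑ i ∈ (b.repr x).support, ((b.repr x i : ℚ) : ℝ) * (i : ℝ) := by
      conv_lhs => rw [← b.linearCombination_repr x, Finsupp.linearCombination_apply, Finsupp.sum]
      refine Finset.sum_congr rfl fun i _ => ?_
      rw [hb, Rat.smul_def]
    have hx2 : (φ x : ℝ) = ∑ i ∈ (b.repr x).support, ((b.repr x i : ℚ) : ℝ) * (q i : ℝ) := by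
      have : φ x = ∑ i ∈ (b.repr x).support, b.repr x i * q i := by
        conv_lhs => rw [← b.linearCombination_repr x, Finsupp.linearCombination_apply,
          Finsupp.sum, map_sum]
        refine Finset.sum_congr rfl fun i _ => ?_
        rw [map_smul, hb, hφ, smul_eq_mul]
      rw [this]
      push_cast
      rfl
    have hx3 : (φ x : ℝ) - x = ∑ i ∈ (b.repr x).support,
        ((b.repr x i : ℚ) : ℝ) * ((q i : ℝ) - (i : ℝ)) := by
      have hx4 : (φ x : ℝ) - x = (∑ i ∈ (b.repr x).support, ((b.repr x i : ℚ) : ℝ) * (q i : ℝ)) -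
          ∑ i ∈ (b.repr x).support, ((b.repr x i : ℚ) : ℝ) * (i : ℝ) := by
        rw [← hx1, hx2]
      rw [hx4, ← Finset.sum_sub_distrib]
      exact Finset.sum_congr rfl fun i _ => by ring
    rw [hx3]
    refine lt_of_le_of_lt (Finset.abs_sum_le_sum_abs _ _) ?_
    have h4 : ∑ i ∈ (b.repr x).support, |((b.repr x i : ℚ) : ℝ) * ((q i : ℝ) - (i : ℝ))| ≤
        ∑ i ∈ (b.repr x).support, |((b.repr x i : ℚ) : ℝ)| * (ε / (2 * K)) := by
      refine Finset.sum_le_sum fun i _ => ?_
      rw [abs_mul]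
      exact mul_le_mul_of_nonneg_left (hq i).le (abs_nonneg _)
    rw [← Finset.sum_mul] at h4
    have h5 := hK x hx
    have h6 : (∑ i ∈ (b.repr x).support, |((b.repr x i : ℚ) : ℝ)|) * (ε / (2 * K)) ≤
        K * (ε / (2 * K)) := mul_le_mul_of_nonneg_right h5 (by positivity)
    have h7 : K * (ε / (2 * K)) = ε / 2 := by field_simp
    linarith

/-- A finite system of linear inequalities with rational coefficients which has a real solution has
a rational solution. -/
theorem exists_rat_of_finite {ι J : Type} [Fintype ι] [Finite J] (a : J → ι → ℚ) (b : J → ℚ)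
    (s : ι → ℝ) (hs : ∀ j, ∑ i, (a j i : ℝ) * s i ≤ (b j : ℝ)) :
    ∃ q : ι → ℚ, ∀ j, ∑ i, a j i * q i ≤ b j := by
  classical
  have := Fintype.ofFinite J
  -- the smallest gap
  obtain ⟨g, hg0, hg⟩ : ∃ g : ℝ, 0 < g ∧ ∀ j, ∑ i, (a j i : ℝ) * s i < b j →
      g ≤ b j - ∑ i, (a j i : ℝ) * s i := by
    refine ⟨(insert 1 ((Finset.univ.filter fun j => ∑ i, (a j i : ℝ) * s i < b j).image
      fun j => (b j : ℝ) - ∑ i, (a j i : ℝ) * s i)).min' ⟨1, Finset.mem_insert_self _ _⟩, ?_, ?_⟩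
    · rw [Finset.lt_min'_iff]
      intro y hy
      rcases Finset.mem_insert.1 hy with rfl | hy
      · exact one_pos
      · obtain ⟨j, hj, rfl⟩ := Finset.mem_image.1 hy
        exact sub_pos.2 (Finset.mem_filter.1 hj).2
    · intro j hj
      refine Finset.min'_le _ _ (Finset.mem_insert_of_mem (Finset.mem_image.2 ⟨j, ?_, rfl⟩))
      exact Finset.mem_filter.2 ⟨Finset.mem_univ _, hj⟩
  let S : Finset ℝ := Finset.univ.image fun j => ∑ i, (a j i : ℝ) * s i
  obtain ⟨φ, hφ1, hφ⟩ := exists_approx S g hg0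
  have hφq : ∀ c : ℚ, φ (c : ℝ) = c := by
    intro c
    have : (c : ℝ) = c • (1 : ℝ) := by rw [Rat.smul_def, mul_one]
    rw [this, map_smul, hφ1, smul_eq_mul, mul_one]
  refine ⟨fun i => φ (s i), fun j => ?_⟩
  have h1 : ∑ i, a j i * φ (s i) = φ (∑ i, (a j i : ℝ) * s i) := by
    rw [map_sum]
    refine Finset.sum_congr rfl fun i _ => ?_
    rw [← Rat.smul_def, map_smul, smul_eq_mul]
  rw [h1]
  rcases eq_or_lt_of_le (hs j) with h2 | h2
  · rw [h2, hφq]
  · have h3 := hg j h2
    have h4 := hφ _ (Finset.mem_image.2 ⟨j, Finset.mem_univ _, rfl⟩)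
    have h5 := (abs_lt.1 h4).2
    have h6 : ((φ (∑ i, (a j i : ℝ) * s i) : ℚ) : ℝ) ≤ b j := by linarith
    exact_mod_cast h6


/-- An integral vector in the real cone generated by integral vectors is in the rational cone. -/
theorem exists_nat_comb {r k : ℕ} (l : Fin r → ℤ) (z : Fin k → Fin r → ℤ) (u : Fin k → ℝ)
    (hu : ∀ i, 0 ≤ u i) (h : ∀ j, (l j : ℝ) = ∑ i, u i * (z i j : ℝ)) :
    ∃ (q : ℕ) (p : Fin k → ℕ), 0 < q ∧ ∀ j, (q : ℤ) * l j = ∑ i, (p i : ℤ) * z i j := by
  classical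
  -- the inequalities
  let a : (Fin r ⊕ Fin r) ⊕ Fin k → Fin k → ℚ := fun s i => match s with
    | Sum.inl (Sum.inl j) => (z i j : ℚ)
    | Sum.inl (Sum.inr j) => -(z i j : ℚ)
    | Sum.inr t => if i = t then -1 else 0
  let b : (Fin r ⊕ Fin r) ⊕ Fin k → ℚ := fun s => match s with
    | Sum.inl (Sum.inl j) => (l j : ℚ)
    | Sum.inl (Sum.inr j) => -(l j : ℚ)
    | Sum.inr _ => 0
  have hs : ∀ s, ∑ i, (a s i : ℝ) * u i ≤ (b s : ℝ) := by
    rintro ((j | j) | t)
    · simp only [a, b, Rat.cast_intCast]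
      rw [h j]
      exact le_of_eq (Finset.sum_congr rfl fun i _ => by ring)
    · simp only [a, b, Rat.cast_intCast, Rat.cast_neg]
      rw [h j, ← Finset.sum_neg_distrib]
      exact le_of_eq (Finset.sum_congr rfl fun i _ => by ring)
    · simp only [a, b]
      rw [Finset.sum_eq_single t]
      · have := hu t
        simp only [if_true]
        push_cast
        linarith
      · intro i _ hi
        simp [hi]
      · intro ht
        exact absurd (Finset.mem_univ t) ht
  obtain ⟨q, hq⟩ := exists_rat_of_finite a b u hs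
  have hq0 : ∀ i, 0 ≤ q i := by
    intro t
    have h1 := hq (Sum.inr t)
    simp only [a, b] at h1
    rw [Finset.sum_eq_single t] at h1
    · simp only [if_true] at h1
      linarith
    · intro i _ hi
      simp [hi]
    · intro ht
      exact absurd (Finset.mem_univ t) ht
  have hqe : ∀ j, (l j : ℚ) = ∑ i, q i * (z i j : ℚ) := by
    intro j
    have h1 := hq (Sum.inl (Sum.inl j))
    have h2 := hq (Sum.inl (Sum.inr j))
    simp only [a, b] at h1 h2
    have h3 : ∑ i, -(z i j : ℚ) * q i = -∑ i, q i * (z i j : ℚ) := by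
      rw [← Finset.sum_neg_distrib]
      exact Finset.sum_congr rfl fun i _ => by ring
    have h4 : ∑ i, (z i j : ℚ) * q i = ∑ i, q i * (z i j : ℚ) :=
      Finset.sum_congr rfl fun i _ => by ring
    rw [h3] at h2
    rw [h4] at h1
    linarith
  -- the common denominator
  let N : ℕ := ∏ i, (q i).den
  have hN : 0 < N := Finset.prod_pos fun i _ => (q i).den_pos
  have hp : ∀ i, ∃ p : ℕ, (N : ℚ) * q i = p := by
    intro i
    obtain ⟨t, ht⟩ : (q i).den ∣ N := Finset.dvd_prod_of_mem _ (Finset.mem_univ i)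
    refine ⟨t * (q i).num.toNat, ?_⟩
    have h1 : (0 : ℤ) ≤ (q i).num := Rat.num_nonneg.2 (hq0 i)
    have h2 : (((q i).num.toNat : ℕ) : ℚ) = ((q i).num : ℚ) := by
      exact_mod_cast congrArg (Int.cast (R := ℚ)) (Int.toNat_of_nonneg h1)
    rw [ht]
    push_cast
    rw [h2]
    have h3 : ((q i).den : ℚ) * q i = (q i).num := Rat.den_mul_eq_num (q i)
    linear_combination (t : ℚ) * h3
  choose p hp using hp
  refine ⟨N, p, hN, fun j => ?_⟩
  have h5 : (N : ℚ) * l j = ∑ i, (p i : ℚ) * z i j := by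
    rw [hqe j, Finset.mul_sum]
    exact Finset.sum_congr rfl fun i _ => by rw [← hp i]; ring
  exact_mod_cast h5

end Pool.Agent.H31.ND
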