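import Mathlib

namespace Pool.Agent.H31.ND

open scoped BigOperators

/-! ## Infinitesimal neighbourhoods -/

/-- additive maps -/
def Add {A B : Type} [AddCommGroup A] [AddCommGroup B] (f : A → B) : Prop :=
  ∀ x y, f (x + y) = f x + f y

/-- linear maps between finite dimensional complex vector spaces -/
def Lin {p q : ℕ} (f : (Fin p → ℂ) → Fin q → ℂ) : Prop :=
  (∀ x y, f (x + y) = f x + f y) ∧ ∀ (t : ℂ) x, f (t • x) = t • f x

/-- linear forms -/
def Form {p : ℕ} (f : (Fin p → ℂ) → ℂ) : Prop :=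
  (∀ x y, f (x + y) = f x + f y) ∧ ∀ (t : ℂ) x, f (t • x) = t * f x

/-- The exponential sequences of an open neighbourhood `U` of the compact analytic space `S'`, which
is reduced, and of `S'`, and the line bundle `O_U(G')`. -/
structure Expo where
  /-- the Picard groups of `U` and `S'` -/
  PU : Type
  PS : Type
  /-- `H^1(U, O)` and `H^1(S', O)` -/
  OU : Type
  OS : Type
  /-- `H^1(U, ℤ)` and `H^1(S', ℤ)` -/
  ZU : Type
  ZS : Type
  /-- `H^2(U, ℤ)` and `H^2(S', ℤ)` -/
  WU : Type
  WS : Type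
  [g1 : AddCommGroup PU]
  [g2 : AddCommGroup PS]
  [g3 : AddCommGroup OU]
  [g4 : AddCommGroup OS]
  [g5 : AddCommGroup ZU]
  [g6 : AddCommGroup ZS]
  [g7 : AddCommGroup WU]
  [g8 : AddCommGroup WS]
  zU : ZU → OU
  zS : ZS → OS
  eU : OU → PU
  eS : OS → PS
  cU : PU → WU
  cS : PS → WS
  /-- the restrictions from `U` to `S'` -/
  rP : PU → PS
  rO : OU → OS
  rZ : ZU → ZS
  rW : WU → WS
  /-- the line bundle `O_U(G')` -/
  gam : PU
  /-- the Picard group of the scheme `j G'`; `0 G'` is empty -/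
  PG : ℕ → Type
  [g9 : ∀ j, AddCommGroup (PG j)]
  /-- the restriction from `U` to `j G'` -/
  rG : ∀ j, PU → PG j

attribute [instance] Expo.g1 Expo.g2 Expo.g3 Expo.g4 Expo.g5 Expo.g6 Expo.g7 Expo.g8 Expo.g9

/-- The exponential sequences are exact; `U` retracts to `S'`. -/
structure Expo.Exact (E : Expo) : Prop where
  add_e : Add E.eU
  add_c : Add E.cU
  add_cS : Add E.cS
  add_P : Add E.rP
  add_O : Add E.rO
  add_W : Add E.rW
  add_eS : Add E.eS
  add_G : ∀ j, Add (E.rG j)
  comm_z : ∀ x, E.rO (E.zU x) = E.zS (E.rZ x)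
  comm_e : ∀ x, E.rP (E.eU x) = E.eS (E.rO x)
  comm_c : ∀ x, E.rW (E.cU x) = E.cS (E.rP x)
  exact_z : ∀ x, E.eU (E.zU x) = 0
  exact_e : ∀ x, E.cU x = 0 → ∃ y, E.eU y = x
  exact_zS : ∀ x, E.eS x = 0 → ∃ y, E.zS y = x
  /-- `H^1(U, O)` and `H^1(S', O)` are vector spaces over the complex numbers -/
  div_O : ∀ (N : ℕ) x, 0 < N → ∃ y : E.OU, N • y = x
  free_O : ∀ (N : ℕ) (x : E.OS), 0 < N → N • x = 0 → x = 0
  /-- `U` retracts to `S'` -/
  onto_Z : ∀ x, ∃ y, E.rZ y = x
  inj_W : ∀ x, E.rW x = 0 → x = 0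
  /-- a torsion line bundle on `S'` is the restriction of a torsion line bundle on `U`, because
  `H^1(U, μ_e) = H^1(S', μ_e)` -/
  lift : ∀ (e : ℕ) x, 0 < e → e • x = 0 → ∃ y, e • y = 0 ∧ E.rP y = x

/-- The covering `V → U`, the composition of a finite étale covering of `U` on which the torsion line
bundle `F` is trivial and of the normalised cyclic covering `z^N = s`, where `s` is the section of
`O(G)` with the divisor `G = ∑ m_j F_j` and `O(G) = Q^N` on the étale covering; `V` is a connected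
component. `D` is the divisor of `z`, which is a Cartier divisor. -/
structure Cyclic (a : ℕ) (al : Fin a → Prop) (m : Fin a → ℕ) (k : Fin a → ℤ) (N : ℕ) where
  /-- the degree of `V` over `U` -/
  g : ℕ
  /-- the components of `D` -/
  T : Type
  /-- the image of the component -/
  ov : T → Fin a
  /-- the ramification index -/
  e : T → ℕ
  /-- the multiplicity of the component in `D` -/
  mu : T → ℕ
  /-- the coefficient of the component in the divisor of the pull back of the rational `n`-form, which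
  is a canonical divisor of `V` -/
  kV : T → ℤ
  g_pos : 0 < g
  ov_al : ∀ s, al (ov s)
  /-- on the normalisation of `z^N = x^m` the orders of `x` and `z` are `N / d` and `m / d`, where `d`
  is the greatest common divisor of `N` and `m` -/
  e_mul : ∀ s, e s * Nat.gcd N (m (ov s)) = N
  mu_mul : ∀ s, mu s * Nat.gcd N (m (ov s)) = m (ov s)
  /-- Riemann-Hurwitz formula; `V → U` is étale outside the preimage of `S'` -/
  hurwitz : ∀ s, kV s + 1 = e s * (k (ov s) + 1)

/-- The infinitesimal neighbourhoods `D_j = j D`, `j ≥ 1`, in the case that `D` is reduced: compact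
(projective) spaces of dimension `d = n - 1`. -/
structure Nbd where
  /-- the Picard group of `D_j`; `P 0` is zero -/
  P : ℕ → Type
  [grp : ∀ j, AddCommGroup (P j)]
  /-- the restriction of `O_V(D)` -/
  o : ∀ j, P j
  /-- the dualising sheaf of `D_j`; it is a line bundle, because `V` is Gorenstein (see `adj` below) -/
  om : ∀ j, P j
  /-- the restriction from `D_(j+1)` to `D_j` -/
  res : ∀ j, P (j + 1) → P j
  /-- the ring of functions on `D_j` and the constant functions -/
  R : ℕ → Type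
  [rng : ∀ j, CommRing (R j)]
  cst : ∀ j, ℂ → R j
  /-- the dimensions of `H^1(D, O(-j D))`, `H^d(D_j, O(-D))` and `H^d(D_j, O)` -/
  h1 : ℕ → ℕ
  hB : ℕ → ℕ
  hC : ℕ → ℕ
  /-- the exact sequence of the units: `H^0(D_j, O^*) → H^1(D, O(-j D)) → Pic D_(j+1) → Pic D_j` -/
  del : ∀ j, (R j)ˣ → Fin (h1 j) → ℂ
  io : ∀ j, (Fin (h1 j) → ℂ) → P (j + 1)
  /-- `H^(d-1)(D, ℂ)` and `H^(d-1)(D_j, O)` -/
  A' : Type
  A : ℕ → Type
  cc : ∀ j, A' → A j
  rA : ∀ j, A j → A 1
  /-- `H^(d-1)(D, O) → H^d(D_j, O(-D)) → H^d(D_(j+1), O)` -/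
  dl : ∀ j, A 1 → Fin (hB j) → ℂ
  gm : ∀ j, (Fin (hB j) → ℂ) → Fin (hC (j + 1)) → ℂ
  /-- the sections of a line bundle on `D_j` -/
  Gs : ∀ j, P j → Type
  rs : ∀ j x, Gs (j + 1) x → Gs j (res j x)
  /-- the section has no zeros -/
  Nz : ∀ j x, Gs j x → Prop
  /-- the duality pairings of `H^0(D_(j+1), ω)` with `H^d(D_(j+1), O)` and of `H^0(D_j, ω(D))`, where
  `ω_(D_j)(D)` is the restriction of `ω_(D_(j+1))`, with `H^d(D_j, O(-D))` -/
  pr : ∀ j, Gs (j + 1) (om (j + 1)) → (Fin (hC (j + 1)) → ℂ) → ℂ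
  pr' : ∀ j, Gs j (res j (om (j + 1))) → (Fin (hB j) → ℂ) → ℂ

attribute [instance] Nbd.grp Nbd.rng

/-- Line bundles and units. -/
structure Nbd.Units (W : Nbd) : Prop where
  add_res : ∀ j, Add (W.res j)
  res_o : ∀ j, W.res j (W.o (j + 1)) = W.o j
  cst_one : ∀ j, W.cst j 1 = 1
  cst_add : ∀ j x y, W.cst j (x + y) = W.cst j x + W.cst j y
  cst_mul : ∀ j x y, W.cst j (x * y) = W.cst j x * W.cst j y
  /-- `D` is connected and reduced: the functions on `D` are constant -/
  const : ∀ j u, 1 ≤ j → ∃ c, IsNilpotent (u - W.cst j c)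
  del_mul : ∀ j u v, W.del j (u * v) = W.del j u + W.del j v
  io_add : ∀ j x y, W.io j (x + y) = W.io j x + W.io j y
  io_del : ∀ j u, 1 ≤ j → W.io j (W.del j u) = 0
  exact_io : ∀ j v, 1 ≤ j → W.io j v = 0 → ∃ u, W.del j u = v
  exact_res : ∀ j x, 1 ≤ j → W.res j x = 0 → ∃ v, W.io j v = x

/-- Cohomology and duality. -/
structure Nbd.Dual (W : Nbd) : Prop where
  /-- `D` is a union of log canonical centres of the log canonical pair `(V, D)`, so it has Du Bois
  singularities (Kollár and Kovács): `H^(d-1)(D, ℂ) → H^(d-1)(D, O)` is onto -/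
  dubois : ∀ x, ∃ y, W.cc 1 y = x
  comp : ∀ j x, 1 ≤ j → W.rA j (W.cc j x) = W.cc 1 x
  /-- the exact cohomology sequence of `0 → O_(D_j)(-D) → O_(D_(j+1)) → O_D → 0` -/
  exact_dl : ∀ j x, 1 ≤ j → W.dl j (W.rA (j + 1) x) = 0
  exact_gm : ∀ j y, 1 ≤ j → W.gm j y = 0 → ∃ x, W.dl j x = y
  lin_gm : ∀ j, Lin (W.gm j)
  /-- Serre duality -/
  lin_pr : ∀ j s, Form (W.pr j s)
  lin_pr' : ∀ j s, Form (W.pr' j s)
  onto : ∀ j f, 1 ≤ j → Form f → ∃ s, W.pr j s = f
  inj : ∀ j s t, 1 ≤ j → W.pr' j s = W.pr' j t → s = t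
  adjoint : ∀ j s y, 1 ≤ j → W.pr' j (W.rs j _ s) y = W.pr j s (W.gm j y)
  nz_zero : ∀ j, ∃ s, W.Nz j 0 s
  nz_triv : ∀ j x s, W.Nz j x s → x = 0
  /-- `D_(j+1)` and `D_j` have the same points -/
  nz_lift : ∀ j x s, 1 ≤ j → W.Nz j _ (W.rs j x s) → W.Nz (j + 1) x s

/-- The tower of the infinitesimal neighbourhoods `j G'` of `S'` and of their preimages in `V`, in the
case that `D` is reduced; `O(G') = Q^N` on the étale covering. `U` is a regular neighbourhood of `S'`:
it contains arbitrarily small neighbourhoods `U_1` such that `U_1 - S' → U - S'` is a homotopy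
equivalence; so the connected covering `V` retracts to `D` and `D` is connected. On the last model
`k_j + 1 = c m_j`, so all the numbers `kV s + 1` are equal to `c N` if `D` is reduced. -/
structure Tower {a : ℕ} {al : Fin a → Prop} {m : Fin a → ℕ} {k : Fin a → ℤ} {N : ℕ}
    (C : Cyclic a al m k N) (E : Expo) (Q : E.PU) where
  W : Nbd
  units : W.Units
  dual : W.Dual
  /-- adjunction: if the canonical divisor of `V` is `l D` then it is Cartier; `V` is canonical (over
  `D` because `(V, D)` is log canonical and `D` is Cartier, outside of `D` because `V → U` is étale and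
  `U` is klt there), so `V` is Gorenstein, and the dualising sheaf of `D_j` is the restriction of
  `O_V((l + j) D)` -/
  adj : ∀ l : ℤ, (∀ s, C.kV s = l) → ∀ j, W.om j = (l + j) • W.o j
  /-- `O_V(D)` is the pull back of `Q`, and `D` is the reduced preimage of `S'` -/
  pull : E.PS → W.P 1
  pull_zero : pull 0 = 0
  pull_eq : W.o 1 = pull (E.rP Q)
  /-- the pull back of line bundles from `j G'` to `D_(N j)`, which is the preimage of `j G'`; the pull
  back of `G'` is `N D` -/
  pi : ∀ j, E.PG j → W.P (N * j)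
  pi_gam : ∀ j, pi j (E.rG j E.gam) = N • W.o (N * j)
  /-- the norm; `Y'` is normal, so the norm of `1 + s^j w` is `1 + s^j w'`, where `w'` is regular -/
  nm : ∀ j, W.P (N * j) → E.PG j
  nm_zero : ∀ j, nm j 0 = 0
  nm_pi : ∀ j x, nm j (pi j x) = C.g • x

/-- The last model `Y'` of the program: all components of `G' = ∑ m_j F_j` are in `S'`,
`K + S' = c G'`, and `(Y', S')` is dlt. `w j` is the number `G'.F_j.A^(n-2)`. `F` and `Q` are line
bundles on the neighbourhood `U`, `F` is torsion. -/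
structure Last (a : ℕ) (al : Fin a → Prop) (m : Fin a → ℕ) (k : Fin a → ℤ) (w : Fin a → ℝ) where
  E : Expo
  ex : E.Exact
  /-- if the degrees `w j` are zero then the nef divisor `G'` is numerically trivial on `S'`; so the
  semi log canonical pair of `S'`, whose canonical divisor is the restriction of `K + S' = c G'`, is
  numerically trivial; it is torsion (Gongyo) -/
  gongyo : (∀ j, al j → w j = 0) → ∃ e : ℕ, 0 < e ∧ e • E.rP E.gam = 0
  /-- the covering; `F` is trivial on a finite étale covering of `U` -/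
  cyclic : ∀ (N : ℕ) (F Q : E.PU), 0 < N → (∃ e : ℕ, 0 < e ∧ e • F = 0) → N • Q + F = E.gam →
    Cyclic a al m k N
  /-- the case that `D` is reduced -/
  tower : ∀ N F Q hN hF hQ, (∀ s, (cyclic N F Q hN hF hQ).mu s = 1) →
    Tower (cyclic N F Q hN hF hQ) E Q

end Pool.Agent.H31.ND
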