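import Pool.Agent.H31.ND.Var
import Pool.Agent.H31.ND.Inf
import Pool.Agent.H31.ND.Flat

namespace Pool.Agent.H31.ND

open scoped BigOperators

/-! ## The minimal model program -/

/-- A run of the minimal model program. `X` has dimension `n ≥ 2`, `K_X ~ 0`, `D` is an effective nef
divisor on `X` with connected support, `D^2` is numerically trivial. `c` is the log canonical
threshold of `(X, D)` and `Y_0 → X` a dlt modification of `(X, c D)` (Hacon; Kollár and Kovács).
`F_j` are the components of `G = ∑ m_j F_j`, the pull back of `D`; every exceptional divisor is one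
of them. `∑ k_j F_j` is the divisor of the pull back of the `n`-form of `X` without zeros, so it is
the canonical divisor of `Y_0`. `S` is the set of the `F_j` with coefficient one in the crepant
boundary, `E` is the sum of the others, `Δ` is the crepant boundary plus `ε E`, so
`K + Δ = c G + ε E`; for a small `ε > 0` the pair `(Y_0, Δ)` is dlt, because no log canonical centre
is contained in `E`. `Y_0 ⇢ Y_1 ⇢ ...` is the program for the class `K + Δ + (2 n + 1) G` with scaling
of the ample divisor `H`; `G_i`, `E_i`, `H_i` are the direct images. If the program stops at `Y_i` then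
`Y_(i+1) = Y_i`. -/
structure Run (n : ℕ) where
  /-- the number of components of `G` -/
  a : ℕ
  m : Fin a → ℕ
  k : Fin a → ℤ
  S : Fin a → Bool
  c : ℚ
  eps : ℝ
  /-- the Picard number of `Y_i` -/
  rk : ℕ → ℕ
  /-- the numerical classes on `Y_i` -/
  Y : ∀ i, Num (rk i) (Fin a)
  /-- `F_j` is not contracted on `Y_i` -/
  al : ℕ → Fin a → Prop
  /-- `G_i` is a Cartier divisor -/
  Car : ℕ → Prop
  H : ∀ i, Vec (rk i)
  /-- the numbers of the scaling: `K + Δ + (2 n + 1) G + lam H` is nef on `Y_i`; zero if the program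
  has stopped -/
  lam : ℕ → ℝ
  /-- the program has not stopped at `Y_i` -/
  Act : ℕ → Prop
  /-- the degree on a rational curve `C_i` which generates the ray contracted at the step `i` and
  satisfies the bound for the length -/
  d : ∀ i, Vec (rk i) → ℝ
  /-- the strict transform from `Y_(i+1)` to `Y_i` -/
  tr : ∀ i, Vec (rk (i + 1)) → Vec (rk i)

namespace Run

variable {n : ℕ} (R : Run n)

/-- the class of `G_i` -/
def G (i : ℕ) : Vec (R.rk i) := ∑ j, (R.m j : ℝ) • (R.Y i).cl j

/-- the class of `E_i` -/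
def E (i : ℕ) : Vec (R.rk i) := ∑ j, (if R.S j then (0 : ℝ) else 1) • (R.Y i).cl j

/-- the class of `K + Δ = c G + ε E` -/
def KD (i : ℕ) : Vec (R.rk i) := (R.c : ℝ) • R.G i + R.eps • R.E i

/-- the class of `K + Δ + (2 n + 1) G` -/
def KG (i : ℕ) : Vec (R.rk i) := R.KD i + (2 * n + 1 : ℝ) • R.G i

/-- the support of `G_i` is connected: it is not the union of two parts without common points (two
different components meet if and only if their intersection number is not zero, since `Y_i` is
`ℚ`-factorial) -/
def Conn (i : ℕ) : Prop :=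
  ∀ T : Fin R.a → Prop, (∃ j, R.al i j ∧ T j) → (∃ j, R.al i j ∧ ¬ T j) →
    ∃ j j', R.al i j ∧ R.al i j' ∧ T j ∧ ¬ T j' ∧ (R.Y i).f ((R.Y i).cl j) ((R.Y i).cl j') ≠ 0

/-- `G_i` is nef and Cartier, with `G_i^2` numerically trivial and connected support -/
def Ok (i : ℕ) : Prop :=
  (R.Y i).Nef (R.G i) ∧ (R.Y i).f (R.G i) (R.G i) = 0 ∧ R.Car i ∧ R.Conn i

/-- The dlt modification. -/
structure Dlt : Prop where
  m_pos : ∀ j, 0 < R.m j
  c_pos : 0 < R.c
  eps_pos : 0 < R.eps
  /-- `K_Y + S = c G` along the divisors of `S` -/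
  crep : ∀ j, R.S j = true → (R.k j : ℚ) + 1 = R.c * R.m j
  /-- the pair `(X, c D)` is not klt -/
  nonempty : ∃ j, R.S j = true
  al_zero : ∀ j, R.al 0 j
  ok_zero : R.Ok 0

/-- Divisors on the models `Y_i`, which are `ℚ`-factorial. -/
structure Geo : Prop where
  form : ∀ i, (R.Y i).Form
  dead : ∀ i j, ¬ R.al i j → (R.Y i).cl j = 0
  pos : ∀ i j, R.al i j → 0 < (R.Y i).f (R.Y i).A ((R.Y i).cl j)
  cl_cl : ∀ i j j', j ≠ j' → 0 ≤ (R.Y i).f ((R.Y i).cl j) ((R.Y i).cl j')
  nef_mov : ∀ i x, (R.Y i).Nef x → (R.Y i).Mov x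
  /-- a divisor without fixed components has a member which does not contain `F_j` -/
  mov_cl : ∀ i x j, (R.Y i).Mov x → 0 ≤ (R.Y i).f x ((R.Y i).cl j)
  closed : ∀ i x y, (∀ t : ℝ, 0 < t → ∃ s, 0 ≤ s ∧ s < t ∧ (R.Y i).Mov (x + s • y)) → (R.Y i).Mov x

/-- The steps of the program. -/
structure Steps : Prop where
  mono : ∀ i j, R.al (i + 1) j → R.al i j
  stay : ∀ i, ¬ R.Act i → R.Ok i → R.Ok (i + 1) ∧ ∀ j, R.al i j → R.al (i + 1) j
  d_add : ∀ i x y, R.d i (x + y) = R.d i x + R.d i y
  d_mul : ∀ i (t : ℝ) x, R.d i (t • x) = t * R.d i x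
  neg : ∀ i, R.Act i → R.d i (R.KG i) < 0
  /-- Kawamata, Fujino: bound for the length of an extremal ray of the dlt pair (it is negative for
  `K + Δ`, because `G_i` is nef) -/
  length : ∀ i, R.Act i → R.Ok i → - (2 * n : ℝ) ≤ R.d i (R.KD i)
  int : ∀ i, R.Act i → R.Ok i → ∃ z : ℕ, R.d i (R.G i) = z
  /-- contraction theorem: if `G_i.C_i = 0` then `G_i` is the pull back of a Cartier divisor from the
  contraction, and `G_(i+1)` is the pull back of the same divisor -/
  contr : ∀ i, R.Act i → R.d i (R.G i) = 0 → R.Ok i → R.Ok (i + 1)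
  /-- if `F_j` is contracted it is covered by curves which are numerically multiples of `C_i` -/
  exc : ∀ i j, R.Act i → R.al i j → ¬ R.al (i + 1) j → ∀ u : Fin R.a → ℝ, (∀ j', 0 ≤ u j') →
    u j = 0 → 0 ≤ R.d i (∑ j', u j' • (R.Y i).cl j')

/-- The scaling. -/
structure Scaling : Prop where
  nonneg : ∀ i, 0 ≤ R.lam i
  nef : ∀ i, (R.Y i).Nef (R.KG i + R.lam i • R.H i)
  /-- Birkar, Cascini, Hacon and McKernan: a program with scaling stops if the numbers do not tend
  to zero, since `(2 n + 1) G + t H` is ample for `t > 0` -/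
  lim : ∀ t : ℝ, 0 < t → ∃ i0, ∀ i, i0 ≤ i → R.lam i < t
  /-- the Picard number drops at a divisorial contraction and does not change at a flip; there is no
  Mori fibration, since the class is effective -/
  rk_le : ∀ i, R.rk (i + 1) ≤ R.rk i
  /-- the strict transform in the case of a flip, or of no change -/
  tr_add : ∀ i x y, R.rk (i + 1) = R.rk i → R.tr i (x + y) = R.tr i x + R.tr i y
  tr_mul : ∀ i (t : ℝ) x, R.rk (i + 1) = R.rk i → R.tr i (t • x) = t • R.tr i x
  tr_cl : ∀ i j, R.rk (i + 1) = R.rk i → R.tr i ((R.Y (i + 1)).cl j) = (R.Y i).cl j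
  tr_H : ∀ i, R.rk (i + 1) = R.rk i → R.tr i (R.H (i + 1)) = R.H i
  tr_mov : ∀ i x, R.rk (i + 1) = R.rk i → (R.Y (i + 1)).Mov x → (R.Y i).Mov (R.tr i x)

end Run


/-- Sections on the last model `Y'`, whose pull back to a common resolution with `X` identifies `G'`
with `D`. For `g = 0` the schemes `g G'` are empty and the zeros `Zq` are empty. -/
structure Sections {r : ℕ} (X : Var r) (D : X.Pr →₀ ℕ) (a : ℕ) (al : Fin a → Prop) (m : Fin a → ℕ)
    (k : Fin a → ℤ) (w : Fin a → ℝ) extends Last a al m k w where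
  /-- the points of `Y'` -/
  Pt : Type
  /-- the points of `S'` -/
  Su : Pt → Prop
  /-- the nonzero sections of `O(g G')` on `Y'`, and their zeros -/
  Ls : ℕ → Type
  Ze : ∀ g, Ls g → Pt → Prop
  /-- the sections of `O(g G')` on the scheme `g G'`, and their zeros -/
  Lq : ℕ → Type
  Zq : ∀ g, Lq g → Pt → Prop
  /-- `H^1(Y', O)` -/
  H1 : Type
  zero : H1
  co : ∀ g, Lq g → H1
  /-- `Y'` has rational singularities and `H^1(X, O_X) = 0` -/
  h1 : ∀ x : H1, x = zero
  /-- the power of the section with the divisor `G'` -/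
  can : ∀ g, 0 < g → ∃ s : Ls g, ∀ x, Ze g s x ↔ Su x
  /-- the exact cohomology sequence of `0 → O → O(g G') → O_(g G')(g G') → 0`; for `q = 0` take the
  power of the section with the divisor `G'` -/
  exact : ∀ g q, co g q = zero → ∃ s : Ls g, ∀ x, Su x → (Ze g s x ↔ Zq g q x)
  triv : ∀ g, 0 < g → g • E.rG g E.gam = 0 → ∃ q : Lq g, ∀ x, ¬ Zq g q x
  /-- the image in `Y'` of a point of a common resolution over the point of `X` -/
  pt : X.Pt → Pt
  /-- the divisor on `X` of the section -/
  dv : ∀ g, Ls g → X.Pr →₀ ℕ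
  dv_line : ∀ g s, X.line (dv g s) = g • X.line D
  dv_supp : ∀ g s p, ¬ Ze g s (pt p) → ∀ F ∈ (dv g s).support, ¬ X.On p F

/-- The support of `D` is connected: it is not the union of two parts without common points. -/
def Var.Conn {r : ℕ} (X : Var r) (D : X.Pr →₀ ℕ) : Prop :=
  ∀ T : X.Pr → Prop, (∃ F ∈ D.support, T F) → (∃ F ∈ D.support, ¬ T F) →
    ∃ F ∈ D.support, ∃ F' ∈ D.support, T F ∧ ¬ T F' ∧ X.num.f (X.num.cl F) (X.num.cl F') ≠ 0

/-- The minimal model program for `(X, D)` and its last model. -/
structure Program {r : ℕ} (X : Var r) (D : X.Pr →₀ ℕ) where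
  R : Run X.n
  dlt : R.Dlt
  geo : R.Geo
  steps : R.Steps
  scaling : R.Scaling
  last : ∀ i, R.Ok i → (∀ j, R.al i j → R.S j = true) → (∃ j, R.al i j) →
    Sections X D R.a (R.al i) R.m R.k fun j => (R.Y i).f (R.G i) ((R.Y i).cl j)

/-- A projective manifold `X` of dimension `n ≥ 2` with `K_X ~ 0` and `H^1(X, O_X) = 0`. -/
structure Given (r : ℕ) where
  X : Var r
  div : X.Divisors
  coh : X.Coh
  cur : X.Currents
  forms : ∀ L, X.Nef L → X.Forms cur L
  prog : ∀ D : X.Pr →₀ ℕ, D ≠ 0 → X.Nef (X.line D) → X.One (X.line D) → X.Conn D → Program X D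

/-! ## The irreducible factors

`X` is a projective manifold of any dimension with `K_X ~ 0` and `H^1(X, O_X) = 0`. By Beauville and
Bogomolov there is a finite étale Galois covering `X' → X` with group `G` and `X' = A × ∏ Y_i`, where
`A` is an abelian variety and the `Y_i` are simply connected: K3 surfaces, strict Calabi-Yau manifolds
and irreducible hyperkähler manifolds. -/

/-- The data of `X` and `X' = A × ∏ Y_i`. -/
structure Factors where
  /-- the Picard number of `X` -/
  r : ℕ
  /-- the manifold `X` -/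
  X : Var r
  /-- the factors `Y_i` and their Picard numbers -/
  I : Type
  rk : I → ℕ
  fac : ∀ i, Given (rk i)
  /-- the Picard group of `A`, and the semiample line bundles on `A` -/
  R : Type
  saA : R → Prop
  /-- the restrictions to the factors of the pull back to `X'` -/
  res : ∀ i, X.P → (fac i).X.P
  resA : X.P → R
  nef_res : ∀ x i, X.Nef x → (fac i).X.Nef (res i x)
  /-- if the square of a nef class is numerically trivial then so are the squares of its
  restrictions -/
  one_res : ∀ x i, X.Nef x → X.One x → (fac i).X.One (res i x)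
  /-- The pull back of `x` is the sum of its restrictions to the factors (`Y_i` is simply connected),
  and semiampleness descends along finite coverings (norm). -/
  descent : ∀ x, (∀ i, (fac i).X.Semiample (res i x)) → saA (resA x) → X.Semiample x
  G : Type
  [grpG : Group G]
  [finG : Fintype G]
  /-- If a multiple of the restriction of `M` to `B` is trivial, a multiple of `M` is the pull back of
  an ample line bundle on `A / B`. -/
  flat : ∀ x, X.Nef x → ∃ F : Flat G, ∀ n : ℕ, 0 < n → n • F.p = 0 → saA (resA x)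

attribute [instance] Factors.grpG Factors.finG

end Pool.Agent.H31.ND
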