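import Pool.Agent.H31.ND.Non

namespace Pool.Agent.H31.ND

open scoped BigOperators

namespace Var

variable {r : ℕ} {X : Var r}

namespace Divisors

variable (h : X.Divisors)

include h

theorem deg_zero (C : X.Cv) : X.deg C 0 = 0 := by
  have := h.add_deg C 0 0
  rw [add_zero] at this
  omega

theorem deg_nsmul (C : X.Cv) (k : ℕ) (x : X.P) : X.deg C (k • x) = k * X.deg C x := by
  induction k with
  | zero => simp [h.deg_zero]
  | succ k ih => rw [succ_nsmul, h.add_deg, ih]; push_cast; ring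

theorem deg_line (C : X.Cv) (D : X.Pr →₀ ℕ) :
    X.deg C (X.line D) = ∑ F ∈ D.support, (D F : ℤ) * X.deg C (X.O F) := by
  classical
  unfold line
  rw [Finsupp.sum]
  induction D.support using Finset.induction_on with
  | empty => simp [h.deg_zero]
  | insert F s hF ih => rw [Finset.sum_insert hF, Finset.sum_insert hF, h.add_deg, h.deg_nsmul, ih]

theorem rl_line (D : X.Pr →₀ ℕ) :
    X.rl (X.line D) = ∑ F ∈ D.support, (D F : ℝ) • X.num.cl F := by
  classical
  unfold line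
  rw [Finsupp.sum]
  induction D.support using Finset.induction_on with
  | empty => simp [h.rl_zero]
  | insert F s hF ih =>
    rw [Finset.sum_insert hF, Finset.sum_insert hF, h.rl_add, h.rl_nsmul, ih, h.cl_eq]

/-- two effective divisors whose components are pairwise orthogonal are orthogonal -/
theorem line_orth (D D' : X.Pr →₀ ℕ)
    (ho : ∀ F ∈ D.support, ∀ F' ∈ D'.support, X.num.f (X.num.cl F) (X.num.cl F') = 0) :
    X.num.f (X.rl (X.line D)) (X.rl (X.line D')) = 0 := by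
  rw [h.rl_line, h.rl_line, h.form.sum]
  refine Finset.sum_eq_zero fun F hF => ?_
  rw [h.form.sum']
  refine Finset.sum_eq_zero fun F' hF' => ?_
  rw [h.form.mul, h.form.mul', ho F hF F' hF']
  simp

/-- a nonzero effective divisor has positive degree -/
theorem line_pos (D : X.Pr →₀ ℕ) (hD : D ≠ 0) : 0 < X.num.f X.num.A (X.rl (X.line D)) := by
  rw [h.rl_line, h.form.sum']
  have hne : D.support.Nonempty := Finsupp.support_nonempty_iff.2 hD
  refine Finset.sum_pos (fun F hF => ?_) hne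
  rw [h.form.mul']
  have h1 : D F ≠ 0 := Finsupp.mem_support_iff.1 hF
  exact mul_pos (by exact_mod_cast Nat.pos_of_ne_zero h1) (h.pos F)

/-- a part of a nef divisor is nef if it does not meet the rest -/
theorem nef_part (L : X.P) (hL : X.Nef L) (m : ℕ) (D₁ D₂ : X.Pr →₀ ℕ)
    (hD : X.line (D₁ + D₂) = m • L)
    (ho : ∀ F ∈ D₁.support, ∀ F' ∈ D₂.support, F ≠ F' ∧ X.num.f (X.num.cl F) (X.num.cl F') = 0) :
    X.Nef (X.line D₁) := by
  classical
  intro C
  by_cases hC : ∃ F ∈ D₁.support, X.In C F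
  · obtain ⟨F, hF, hCF⟩ := hC
    have h2 : X.deg C (X.line D₂) = 0 := by
      rw [h.deg_line]
      refine Finset.sum_eq_zero fun F' hF' => ?_
      obtain ⟨h3, h4⟩ := ho F hF F' hF'
      rw [h.disj_in C F F' h3 h4 hCF, mul_zero]
    have h3 : X.deg C (X.line D₁) = m * X.deg C L := by
      have h4 := congrArg (X.deg C) hD
      rw [line_add, h.add_deg, h2, add_zero, h.deg_nsmul] at h4
      exact h4
    rw [h3]
    exact mul_nonneg (Int.natCast_nonneg m) (hL C)
  · push Not at hC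
    rw [h.deg_line]
    exact Finset.sum_nonneg fun F hF =>
      mul_nonneg (Int.natCast_nonneg _) (h.not_in C F (hC F hF))

/-- **Step 7.** If the support of a divisor in `|m L|` is not connected then `L` is semiample. -/
theorem disconnected (L : X.P) (hL : X.Nef L) (hone : X.One L) (m : ℕ) (hm : 0 < m)
    (D : X.Pr →₀ ℕ) (hD : X.line D = m • L) (hc : ¬ X.Conn D) : X.Semiample L := by
  classical
  unfold Conn at hc
  push Not at hc
  obtain ⟨T, ⟨F₁, hF₁, hT₁⟩, ⟨F₂, hF₂, hT₂⟩, ho⟩ := hc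
  -- the two parts
  let D₁ : X.Pr →₀ ℕ := D.filter T
  let D₂ : X.Pr →₀ ℕ := D.filter fun F => ¬ T F
  have hsum : D₁ + D₂ = D := Finsupp.filter_add_filter_not D T
  have hs₁ : ∀ F ∈ D₁.support, F ∈ D.support ∧ T F := by
    intro F hF
    rw [Finsupp.support_filter, Finset.mem_filter] at hF
    exact hF
  have hs₂ : ∀ F ∈ D₂.support, F ∈ D.support ∧ ¬ T F := by
    intro F hF
    rw [Finsupp.support_filter, Finset.mem_filter] at hF
    exact hF
  have hne₁ : D₁ ≠ 0 := by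
    intro h0
    have h1 : F₁ ∈ D₁.support := by
      rw [Finsupp.support_filter, Finset.mem_filter]
      exact ⟨hF₁, hT₁⟩
    rw [h0] at h1
    simp at h1
  have hne₂ : D₂ ≠ 0 := by
    intro h0
    have h1 : F₂ ∈ D₂.support := by
      rw [Finsupp.support_filter, Finset.mem_filter]
      exact ⟨hF₂, hT₂⟩
    rw [h0] at h1
    simp at h1
  have ho₁₂ : ∀ F ∈ D₁.support, ∀ F' ∈ D₂.support,
      F ≠ F' ∧ X.num.f (X.num.cl F) (X.num.cl F') = 0 := by
    intro F hF F' hF'
    obtain ⟨h1, h2⟩ := hs₁ F hF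
    obtain ⟨h3, h4⟩ := hs₂ F' hF'
    exact ⟨fun e => h4 (e ▸ h2), ho F h1 F' h3 h2 h4⟩
  have ho₂₁ : ∀ F ∈ D₂.support, ∀ F' ∈ D₁.support,
      F ≠ F' ∧ X.num.f (X.num.cl F) (X.num.cl F') = 0 := by
    intro F hF F' hF'
    obtain ⟨h1, h2⟩ := ho₁₂ F' hF' F hF
    exact ⟨Ne.symm h1, by rw [h.form.symm]; exact h2⟩
  have hD₁₂ : X.line (D₁ + D₂) = m • L := by rw [hsum]; exact hD
  have hD₂₁ : X.line (D₂ + D₁) = m • L := by rw [add_comm]; exact hD₁₂
  have hN₁ := h.nef_part L hL m D₁ D₂ hD₁₂ ho₁₂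
  have hN₂ := h.nef_part L hL m D₂ D₁ hD₂₁ ho₂₁
  -- squares
  set x₁ := X.rl (X.line D₁) with hx₁
  set x₂ := X.rl (X.line D₂) with hx₂
  have hx : x₁ + x₂ = (m : ℝ) • X.rl L := by
    rw [hx₁, hx₂, ← h.rl_add, ← line_add, hD₁₂, h.rl_nsmul]
  have h12 : X.num.f x₁ x₂ = 0 := h.line_orth D₁ D₂ fun F hF F' hF' => (ho₁₂ F hF F' hF').2
  have hn₁ : X.num.Nef x₁ := (h.nef _).1 hN₁
  have hn₂ : X.num.Nef x₂ := (h.nef _).1 hN₂
  have h11 := h.form.nef_nef _ _ hn₁ hn₁
  have h22 := h.form.nef_nef _ _ hn₂ hn₂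
  have hsq : X.num.f (x₁ + x₂) (x₁ + x₂) = 0 := by
    have h3 : X.num.f (X.rl L) (X.rl L) = 0 := hone
    rw [hx, h.form.mul, h.form.mul', h3]
    simp
  have hsq' : X.num.f x₁ x₁ + X.num.f x₂ x₂ = 0 := by
    rw [h.form.add, h.form.add', h.form.add', h.form.symm x₂ x₁, h12] at hsq
    linarith
  have h11' : X.num.f x₁ x₁ = 0 := by linarith
  have hp₁ : 0 < X.num.f X.num.A x₁ := h.line_pos D₁ hne₁
  have hp₂ : 0 < X.num.f X.num.A x₂ := h.line_pos D₂ hne₂
  have hx₁0 : x₁ ≠ 0 := by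
    intro h0
    rw [h0, h.form.zero'] at hp₁
    exact lt_irrefl _ hp₁
  -- proportional
  have hprop := h.form.prop hn₁ h11' hx₁0 h12 h22
  set t := X.num.f X.num.A x₂ / X.num.f X.num.A x₁ with ht
  have ht0 : 0 < t := div_pos hp₂ hp₁
  -- a coordinate which is not zero
  obtain ⟨i, hi⟩ : ∃ i, x₁ i ≠ 0 := by
    by_contra hcon
    push Not at hcon
    exact hx₁0 (funext hcon)
  set z₁ : ℤ := X.c (X.line D₁) i with hz₁
  set z₂ : ℤ := X.c (X.line D₂) i with hz₂
  have e₁ : x₁ i = (z₁ : ℝ) := rfl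
  have e₂ : x₂ i = (z₂ : ℝ) := rfl
  have e₃ : (z₂ : ℝ) = t * z₁ := by
    rw [← e₂, ← e₁]
    have := congrFun hprop i
    simpa using this
  have hz₁0 : z₁ ≠ 0 := by
    intro h0
    apply hi
    rw [e₁, h0]
    simp
  have hz₂0 : z₂ ≠ 0 := by
    intro h0
    rw [h0] at e₃
    have h3 : t * (z₁ : ℝ) ≠ 0 := mul_ne_zero ht0.ne' (by exact_mod_cast hz₁0)
    exact h3 (by rw [← e₃]; simp)
  -- `a x₂ = b x₁` with positive integers
  set a : ℕ := z₁.natAbs with ha
  set b : ℕ := z₂.natAbs with hb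
  have ha0 : 0 < a := Int.natAbs_pos.2 hz₁0
  have hb0 : 0 < b := Int.natAbs_pos.2 hz₂0
  have hab : (b : ℝ) = t * a := by
    have h3 : (b : ℝ) = |(z₂ : ℝ)| := by rw [hb, Nat.cast_natAbs]; push_cast; rfl
    have h4 : (a : ℝ) = |(z₁ : ℝ)| := by rw [ha, Nat.cast_natAbs]; push_cast; rfl
    rw [h3, h4, e₃, abs_mul, abs_of_pos ht0]
  have hc0 : X.c (a • X.line D₂ - b • X.line D₁) = 0 := by
    rw [← rl_zero_iff]
    have h3 : X.rl (a • X.line D₂ - b • X.line D₁) + X.rl (b • X.line D₁) =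
        X.rl (a • X.line D₂) := by
      rw [← h.rl_add, sub_add_cancel]
    rw [h.rl_nsmul, h.rl_nsmul] at h3
    have h4 : (a : ℝ) • x₂ = (b : ℝ) • x₁ := by
      rw [hprop, smul_smul, hab, mul_comm]
    have h5 : X.rl (a • X.line D₂ - b • X.line D₁) = (a : ℝ) • x₂ - (b : ℝ) • x₁ :=
      eq_sub_of_add_eq h3
    rw [h5, h4, sub_self]
  obtain ⟨k, hk, hk0⟩ := h.tors _ hc0
  have hrel : (k * a) • X.line D₂ = (k * b) • X.line D₁ := by
    rw [smul_sub, sub_eq_zero] at hk0
    rw [mul_smul, mul_smul]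
    exact hk0
  have hDL : m • L = X.line D₁ + X.line D₂ := by rw [← hD₁₂, line_add]
  -- two divisors without common points
  refine ⟨k * a * b * m, by positivity, fun p => ?_⟩
  by_cases hp : ∃ F ∈ D₁.support, X.On p F
  · obtain ⟨F, hF, hpF⟩ := hp
    refine ⟨(a * (k * (a + b))) • D₂, ?_, fun F' hF' => ?_⟩
    · rw [line_nsmul, mul_smul (k * a * b) m L, hDL, smul_add]
      have h3 : (k * a * b) • X.line D₁ = (a * (k * a)) • X.line D₂ := by
        have : k * a * b = a * (k * b) := by ring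
        rw [this, mul_smul, ← hrel, ← mul_smul]
      rw [h3, ← add_smul]
      congr 1
      ring
    · have h3 : F' ∈ D₂.support := Finsupp.support_smul hF'
      exact h.disj F F' (ho₁₂ F hF F' h3).1 (ho₁₂ F hF F' h3).2 p hpF
  · push Not at hp
    refine ⟨(b * (k * (a + b))) • D₁, ?_, fun F hF => hp F (Finsupp.support_smul hF)⟩
    rw [line_nsmul, mul_smul (k * a * b) m L, hDL, smul_add]
    have h3 : (k * a * b) • X.line D₂ = (b * (k * b)) • X.line D₁ := by
      have : k * a * b = b * (k * a) := by ring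
      rw [this, mul_smul, hrel, ← mul_smul]
    rw [h3, ← add_smul]
    congr 1
    ring

end Divisors

end Var

end Pool.Agent.H31.ND
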