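import Pool.Agent.H31.ND.Main

namespace Pool.Agent.H31.ND

open scoped BigOperators

/-- the restriction of the line bundle to `B` is torsion -/
theorem Flat.torsion {G : Type} [Group G] [Fintype G] (F : Flat G) : Fintype.card G • F.p = 0 := by
  have h1 : ∀ w, ∑ g, F.actW g w = 0 := by
    intro w
    refine F.inv _ fun g => ?_
    have h := map_sum (AddMonoidHom.mk' (F.actW g) (F.add_W g)) (fun x => F.actW x w) Finset.univ
    refine h.trans ?_
    calc ∑ x, F.actW g (F.actW x w) = ∑ x, F.actW (g * x) w :=
          Finset.sum_congr rfl fun x _ => (F.mul_W g x w).symm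
      _ = ∑ x, F.actW x w := Fintype.sum_equiv (Equiv.mulLeft g) _ _ fun x => rfl
  have h2 : ∀ v, ∑ g, F.actV g v = 0 := by
    intro v
    obtain ⟨w, rfl⟩ := F.r_onto v
    have h := map_sum (AddMonoidHom.mk' F.r F.add_r) (fun x => F.actW x w) Finset.univ
    calc ∑ g, F.actV g (F.r w) = ∑ g, F.r (F.actW g w) :=
          Finset.sum_congr rfl fun g _ => (F.r_act g w).symm
      _ = F.r (∑ g, F.actW g w) := h.symm
      _ = 0 := by rw [h1]; exact map_zero (AddMonoidHom.mk' F.r F.add_r)
  have h3 := F.rigid h2 F.p
  rw [Finset.sum_congr rfl fun g _ => F.p_inv g] at h3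
  simpa using h3

/-- numerically trivial line bundles are semiample if `H^1(X, O_X) = 0` -/
theorem Var.Divisors.semiample_of_zero {r : ℕ} {X : Var r} (h : X.Divisors) (x : X.P)
    (hx : X.c x = 0) : X.Semiample x := by
  obtain ⟨k, hk, e⟩ := h.tors x hx
  refine ⟨k, hk, fun p => ⟨0, by rw [Var.line_zero, e], fun F hF => ?_⟩⟩
  simp at hF

/-- **Theorem.** A nef line bundle `x` on `X` with numerically trivial square is semiample if each of
its restrictions to the factors `Y_i` is numerically trivial, or has a multiple with a section, or has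
a multiple whose Euler characteristic is not zero. -/
theorem Factors.semiample (D : Factors) (x : D.X.P) (hx : D.X.Nef x) (hone : D.X.One x)
    (h : ∀ i, (D.fac i).X.c (D.res i x) = 0 ∨
      (∃ m : ℕ, 0 < m ∧ (D.fac i).X.h 0 (m • D.res i x) ≠ 0) ∨
      ∃ m : ℤ, (D.fac i).X.chi (m • D.res i x) ≠ 0) : D.X.Semiample x := by
  refine D.descent x (fun i => ?_) ?_
  · rcases h i with h | h
    · exact (D.fac i).div.semiample_of_zero _ h
    · exact (D.fac i).semiample _ (D.nef_res x i hx) (D.one_res x i hx hone) h
  · obtain ⟨F, hF⟩ := D.flat x hx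
    exact hF _ Fintype.card_pos F.torsion

end Pool.Agent.H31.ND
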