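import Pool.Agent.H31.ND.Defs

namespace Pool.Agent.H31.ND

open scoped BigOperators

namespace Add

variable {A B : Type} [AddCommGroup A] [AddCommGroup B] {f : A → B}

theorem zero (h : Add f) : f 0 = 0 := by
  have := h 0 0
  rw [add_zero] at this
  exact left_eq_add.1 this

theorem sub (h : Add f) (x y : A) : f (x - y) = f x - f y := by
  have := h (x - y) y
  rw [sub_add_cancel] at this
  rw [this, add_sub_cancel_right]

theorem nsmul (h : Add f) (n : ℕ) (x : A) : f (n • x) = n • f x := by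
  induction n with
  | zero => rw [zero_smul, zero_smul, h.zero]
  | succ n ih => rw [succ_nsmul, succ_nsmul, h, ih]

end Add

namespace Expo.Exact

variable {E : Expo} (h : E.Exact)

include h

/-- A line bundle on `U` with trivial restriction to `S'` has roots of every order with trivial
restriction to `S'`. -/
theorem root (x : E.PU) (hx : E.rP x = 0) (N : ℕ) (hN : 0 < N) :
    ∃ y, N • y = x ∧ E.rP y = 0 := by
  -- the Chern class is zero
  have h1 : E.cU x = 0 := by
    apply h.inj_W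
    rw [h.comm_c, hx, h.add_cS.zero]
  obtain ⟨a, rfl⟩ := h.exact_e x h1
  -- the restriction of `a` is integral
  rw [h.comm_e] at hx
  obtain ⟨b, hb⟩ := h.exact_zS _ hx
  obtain ⟨b', rfl⟩ := h.onto_Z b
  have h2 : E.rO (a - E.zU b') = 0 := by
    rw [h.add_O.sub, h.comm_z, hb, sub_self]
  obtain ⟨a', h3⟩ := h.div_O N (a - E.zU b') hN
  have h4 : E.rO a' = 0 := by
    refine h.free_O N _ hN ?_
    rw [← h.add_O.nsmul, h3, h2]
  refine ⟨E.eU a', ?_, ?_⟩
  · rw [← h.add_e.nsmul, h3, h.add_e.sub, h.exact_z, sub_zero]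
  · rw [h.comm_e, h4, h.add_eS.zero]

/-- **Step 12.** -/
theorem root_of_torsion (x : E.PU) (hx : ∃ e : ℕ, 0 < e ∧ e • E.rP x = 0) (N : ℕ) (hN : 0 < N) :
    ∃ F Q : E.PU, (∃ e : ℕ, 0 < e ∧ e • F = 0) ∧ N • Q + F = x ∧ E.rP Q = 0 := by
  obtain ⟨e, he, h1⟩ := hx
  obtain ⟨F, hF, hF'⟩ := h.lift e _ he h1
  obtain ⟨Q, hQ, hQ'⟩ := h.root (x - F) (by rw [h.add_P.sub, hF', sub_self]) N hN
  exact ⟨F, Q, ⟨e, he, hF⟩, by rw [hQ, sub_add_cancel], hQ'⟩

end Expo.Exact

end Pool.Agent.H31.ND
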