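import Pool.Agent.H31.ND.Root

namespace Pool.Agent.H31.ND

open scoped BigOperators

open Polynomial in
/-- units of a ring in which every element is a constant plus a nilpotent element have roots -/
theorem exists_root_unit {R : Type} [CommRing R] (cst : ℂ → R) (h1 : cst 1 = 1)
    (hadd : ∀ x y, cst (x + y) = cst x + cst y) (hmul : ∀ x y, cst (x * y) = cst x * cst y)
    (h : ∀ u : R, ∃ c : ℂ, IsNilpotent (u - cst c)) (u : Rˣ) (q : ℕ) (hq : 0 < q) :
    ∃ v : Rˣ, v ^ q = u := by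
  have h0 : cst 0 = 0 := by
    have := hadd 0 0
    rw [add_zero] at this
    exact left_eq_add.1 this
  let φ : ℂ →+* R := ⟨⟨⟨cst, h1⟩, hmul⟩, h0, hadd⟩
  obtain ⟨c, hc⟩ := h u
  by_cases htriv : Subsingleton R
  · exact ⟨1, Units.ext (Subsingleton.elim _ _)⟩
  have : Nontrivial R := not_subsingleton_iff_nontrivial.1 htriv
  have hc0 : c ≠ 0 := by
    rintro rfl
    rw [h0, sub_zero] at hc
    exact u.isUnit.not_isNilpotent hc
  obtain ⟨b, hb⟩ := IsAlgClosed.exists_pow_nat_eq c hq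
  have hb0 : b ≠ 0 := by
    rintro rfl
    rw [zero_pow hq.ne'] at hb
    exact hc0 hb.symm
  let P : R[X] := X ^ q - C (u : R)
  have h1 : aeval (φ b) P = φ c - u := by
    simp only [P, map_sub, map_pow, aeval_X, aeval_C, Algebra.algebraMap_self, RingHom.id_apply]
    rw [← map_pow, hb]
  have h2 : IsNilpotent (aeval (φ b) P) := by
    rw [h1, ← neg_sub, isNilpotent_neg_iff]
    exact hc
  have h3 : IsUnit (aeval (φ b) (derivative P)) := by
    have h4 : aeval (φ b) (derivative P) = φ (q * b ^ (q - 1)) := by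
      simp only [P, derivative_sub, derivative_X_pow, derivative_C, sub_zero, map_mul, map_natCast,
        map_pow, aeval_X]
    rw [h4]
    refine (isUnit_iff_ne_zero.2 ?_).map φ
    exact mul_ne_zero (by exact_mod_cast hq.ne') (pow_ne_zero _ hb0)
  obtain ⟨r, ⟨_, hr⟩, _⟩ := existsUnique_nilpotent_sub_and_aeval_eq_zero h2 h3
  have hr' : r ^ q = u := by
    simp only [P, map_sub, map_pow, aeval_X, aeval_C, Algebra.algebraMap_self,
      RingHom.id_apply] at hr
    exact sub_eq_zero.1 hr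
  have hru : IsUnit r := by
    rw [← isUnit_pow_iff hq.ne', hr']
    exact u.isUnit
  refine ⟨hru.unit, Units.ext ?_⟩
  rw [Units.val_pow_eq_pow_val, IsUnit.unit_spec, hr']

section

variable {a : ℕ} {al : Fin a → Prop} {m : Fin a → ℕ} {k : Fin a → ℤ} {N : ℕ}

/-- **Step 13.** If all the multiplicities `m_j` divide `N` then `D` is reduced. -/
theorem Cyclic.mu_eq (C : Cyclic a al m k N) (hm : ∀ j, al j → 0 < m j ∧ m j ∣ N) (s : C.T) :
    C.mu s = 1 := by
  obtain ⟨h1, h2⟩ := hm _ (C.ov_al s)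
  have h3 := C.mu_mul s
  rw [Nat.gcd_eq_right h2] at h3
  exact Nat.eq_of_mul_eq_mul_right h1 (by rw [h3, one_mul])

/-- **Step 13.** The canonical divisor of `V` is `l D`, `l + 1 = c N > 0`. -/
theorem Cyclic.exists_l (C : Cyclic a al m k N) (hm : ∀ j, al j → 0 < m j ∧ m j ∣ N) (hN : 0 < N)
    (c : ℚ) (hc : 0 < c) (hk : ∀ j, al j → (k j : ℚ) + 1 = c * m j) :
    ∃ l : ℕ, ∀ s, C.kV s = l := by
  have h1 : ∀ s, (C.kV s : ℚ) + 1 = c * N := by
    intro s
    obtain ⟨_, h3⟩ := hm _ (C.ov_al s)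
    have h4 := C.e_mul s
    rw [Nat.gcd_eq_right h3] at h4
    have h5 : ((C.e s : ℚ)) * (m (C.ov s) : ℚ) = N := by exact_mod_cast h4
    have h6 : (C.kV s : ℚ) + 1 = (C.e s : ℚ) * ((k (C.ov s) : ℚ) + 1) := by
      exact_mod_cast C.hurwitz s
    rw [h6, hk _ (C.ov_al s), ← h5]
    ring
  by_cases hT : Nonempty C.T
  · obtain ⟨s0⟩ := hT
    have hcN : (0 : ℚ) < c * N := mul_pos hc (by exact_mod_cast hN)
    have h7 : 0 < C.kV s0 + 1 := by
      have := h1 s0
      rw [← this] at hcN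
      exact_mod_cast hcN
    obtain ⟨l, hl⟩ := Int.eq_ofNat_of_zero_le (show 0 ≤ C.kV s0 by omega)
    refine ⟨l, fun s => ?_⟩
    have h8 : (C.kV s : ℚ) = C.kV s0 := by
      have := h1 s
      have := h1 s0
      linarith
    have h9 : C.kV s = C.kV s0 := by exact_mod_cast h8
    rw [h9, hl]
  · exact ⟨0, fun s => absurd ⟨s⟩ hT⟩

namespace Nbd

variable {W : Nbd}

/-- the kernel of the restriction of line bundles from `D_(j+1)` to `D_j` is torsion free -/
theorem Units.torsion_free (hW : W.Units) (j : ℕ) (hj : 1 ≤ j) (x : W.P (j + 1))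
    (hx : W.res j x = 0) (q : ℕ) (hq : 0 < q) (hqx : q • x = 0) : x = 0 := by
  obtain ⟨v, rfl⟩ := hW.exact_res j x hj hx
  have hio : Add (W.io j) := hW.io_add j
  rw [← hio.nsmul] at hqx
  obtain ⟨u, hu⟩ := hW.exact_io j _ hj hqx
  obtain ⟨w, rfl⟩ := exists_root_unit (W.cst j) (hW.cst_one j) (hW.cst_add j) (hW.cst_mul j)
    (fun u => hW.const j u hj) u q hq
  have h1 : ∀ t : ℕ, W.del j (w ^ t) = t • W.del j w := by
    intro t
    induction t with
    | zero =>
      have h2 := hW.del_mul j 1 1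
      rw [one_mul] at h2
      rw [pow_zero, zero_smul]
      exact left_eq_add.1 h2
    | succ t ih => rw [pow_succ, hW.del_mul, ih, succ_nsmul]
  rw [h1] at hu
  have h3 : W.del j w = v := by
    have hq' : (q : ℂ) ≠ 0 := by exact_mod_cast hq.ne'
    funext i
    have h4 := congrFun hu i
    simp only [Pi.smul_apply, nsmul_eq_mul] at h4
    exact mul_left_cancel₀ hq' h4
  rw [← h3]
  exact hW.io_del j w hj

/-- a linear map between the spaces `ℂ^p` and `ℂ^q` -/
def toLin {p q : ℕ} {f : (Fin p → ℂ) → Fin q → ℂ} (h : Lin f) : (Fin p → ℂ) →ₗ[ℂ] (Fin q → ℂ) :=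
  ⟨⟨f, h.1⟩, h.2⟩

/-- `H^d(D_j, O(-D)) → H^d(D_(j+1), O)` is injective -/
theorem Dual.gm_inj (hW : W.Dual) (j : ℕ) (hj : 1 ≤ j) (y : Fin (W.hB j) → ℂ)
    (hy : W.gm j y = 0) : y = 0 := by
  obtain ⟨x, rfl⟩ := hW.exact_gm j y hj hy
  obtain ⟨z, rfl⟩ := hW.dubois x
  rw [← hW.comp (j + 1) z (by omega)]
  exact hW.exact_dl j _ hj

/-- all sections of `ω_(D_j)(D)` lift to sections of the dualising sheaf of `D_(j+1)` -/
theorem Dual.exists_lift (hW : W.Dual) (j : ℕ) (hj : 1 ≤ j)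
    (s : W.Gs j (W.res j (W.om (j + 1)))) : ∃ t, W.rs j _ t = s := by
  obtain ⟨f, hf⟩ := (toLin (hW.lin_gm j)).exists_leftInverse_of_injective
    (LinearMap.ker_eq_bot'.2 (hW.gm_inj j hj))
  have hf' : ∀ y, f (W.gm j y) = y := fun y => LinearMap.congr_fun hf y
  have hform : Form (fun y => W.pr' j s (f y)) :=
    ⟨fun x y => by simp only [map_add, (hW.lin_pr' j s).1],
      fun t x => by simp only [map_smul, (hW.lin_pr' j s).2]⟩
  obtain ⟨t, ht⟩ := hW.onto j _ hj hform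
  refine ⟨t, hW.inj j _ _ hj ?_⟩
  funext y
  rw [hW.adjoint j t y hj, ht]
  exact congrArg (W.pr' j s) (hf' y)

end Nbd

variable {C : Cyclic a al m k N} {E : Expo} {Q : E.PU}

/-- **Step 14.** The restriction of `O_V(D)` to all the infinitesimal neighbourhoods `D_j` is
trivial. -/
theorem Tower.o_zero (T : Tower C E Q) (l : ℕ) (hl : ∀ s, C.kV s = l) (hQ : E.rP Q = 0) (j : ℕ)
    (hj : 1 ≤ j) : T.W.o j = 0 := by
  induction j, hj using Nat.le_induction with
  | base => rw [T.pull_eq, hQ, T.pull_zero]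
  | succ j hj ih =>
    have h1 : T.W.om (j + 1) = (l + (j + 1)) • T.W.o (j + 1) := by
      have h := T.adj l hl (j + 1)
      rw [h, ← natCast_zsmul]
      congr 1
    have h2 : T.W.res j (T.W.om (j + 1)) = 0 := by
      rw [h1, (T.units.add_res j).nsmul, T.units.res_o, ih, smul_zero]
    -- a section without zeros
    have h3 : ∀ x : T.W.P j, x = 0 → ∃ s : T.W.Gs j x, T.W.Nz j x s := by
      rintro _ rfl
      exact T.dual.nz_zero j
    obtain ⟨s, hs⟩ := h3 _ h2
    obtain ⟨t, rfl⟩ := T.dual.exists_lift j hj s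
    have h4 := T.dual.nz_triv _ _ _ (T.dual.nz_lift j _ t hj hs)
    rw [h1] at h4
    exact T.units.torsion_free j hj _ (by rw [T.units.res_o, ih]) _ (by omega) h4

/-- **Step 15.** A multiple of `O(G')` is trivial on all the schemes `j G'`. -/
theorem Tower.triv (T : Tower C E Q) (hm : ∀ j, al j → 0 < m j ∧ m j ∣ N) (hN : 0 < N)
    (c : ℚ) (hc : 0 < c) (hk : ∀ j, al j → (k j : ℚ) + 1 = c * m j) (hQ : E.rP Q = 0) (j : ℕ)
    (hj : 1 ≤ j) : C.g • E.rG j E.gam = 0 := by
  obtain ⟨l, hl⟩ := C.exists_l hm hN c hc hk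
  rw [← T.nm_pi, T.pi_gam, T.o_zero l hl hQ (N * j) (Nat.mul_pos hN hj), smul_zero, T.nm_zero]

end

end Pool.Agent.H31.ND
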