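import Pool.Agent.H31.ND.Prog
import Pool.Agent.H31.ND.Tower
import Pool.Agent.H31.ND.Root
import Pool.Agent.H31.ND.Dis

namespace Pool.Agent.H31.ND

open scoped BigOperators

/-- **Step 11.** The degrees of `G_i` on its components are zero. -/
theorem Run.deg_zero {n : ℕ} (R : Run n) (hg : R.Geo) (hd : R.Dlt) (i : ℕ) (h : R.Ok i)
    (j : Fin R.a) : (R.Y i).f (R.G i) ((R.Y i).cl j) = 0 := by
  obtain ⟨hn, h2, _, _⟩ := h
  have h3 : (R.Y i).f (R.G i) (R.G i) =
      ∑ j, (R.m j : ℝ) * (R.Y i).f (R.G i) ((R.Y i).cl j) := by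
    change (R.Y i).f (R.G i) (∑ j, (R.m j : ℝ) • (R.Y i).cl j) = _
    rw [(hg.form i).sum']
    exact Finset.sum_congr rfl fun j _ => (hg.form i).mul' _ _ _
  rw [h2] at h3
  have h4 : ∀ j ∈ Finset.univ, 0 ≤ (R.m j : ℝ) * (R.Y i).f (R.G i) ((R.Y i).cl j) := fun j _ =>
    mul_nonneg (Nat.cast_nonneg _) ((hg.form i).nef_cl _ _ hn)
  have h5 := (Finset.sum_eq_zero_iff_of_nonneg h4).1 h3.symm j (Finset.mem_univ j)
  rcases mul_eq_zero.1 h5 with h6 | h6
  · have := hd.m_pos j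
    have h7 : R.m j = 0 := by exact_mod_cast h6
    omega
  · exact h6

namespace Var

variable {r : ℕ} {X : Var r}

/-- multiples of a semiample line bundle -/
theorem Semiample.of_nsmul {x : X.P} {m : ℕ} (hm : 0 < m) (h : X.Semiample (m • x)) :
    X.Semiample x := by
  obtain ⟨k, hk, h1⟩ := h
  refine ⟨k * m, Nat.mul_pos hk hm, fun p => ?_⟩
  obtain ⟨D, hD, h2⟩ := h1 p
  exact ⟨D, by rw [hD, smul_smul], h2⟩

theorem semiample_zero : X.Semiample (0 : X.P) :=
  ⟨1, one_pos, fun _ => ⟨0, by rw [line_zero, smul_zero], fun F hF => by simp at hF⟩⟩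

end Var

/-- **Steps 8 to 16**: the divisor `D` is semiample. -/
theorem Program.semiample {r : ℕ} {X : Var r} {D : X.Pr →₀ ℕ} (P : Program X D) :
    X.Semiample (X.line D) := by
  classical
  obtain ⟨i, hok, hS, j0, hj0⟩ := P.R.endpoint P.dlt P.geo P.steps P.scaling
  have S := P.last i hok hS ⟨j0, hj0⟩
  have htor := S.gongyo fun j _ => P.R.deg_zero P.geo P.dlt i hok j
  -- the order of the covering
  let N : ℕ := ∏ j, P.R.m j
  have hN : 0 < N := Finset.prod_pos fun j _ => P.dlt.m_pos j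
  obtain ⟨F, Q, hF, hQ, hQ'⟩ := S.ex.root_of_torsion S.E.gam htor N hN
  have hm : ∀ j, P.R.al i j → 0 < P.R.m j ∧ P.R.m j ∣ N := fun j _ =>
    ⟨P.dlt.m_pos j, Finset.dvd_prod_of_mem _ (Finset.mem_univ j)⟩
  let C := S.cyclic N F Q hN hF hQ
  have T := S.tower N F Q hN hF hQ (C.mu_eq hm)
  have h1 := T.triv hm hN P.R.c P.dlt.c_pos (fun j hj => P.dlt.crep j (hS j hj)) hQ' C.g C.g_pos
  -- the second section
  obtain ⟨q, hq⟩ := S.triv C.g C.g_pos h1
  obtain ⟨s, hs⟩ := S.exact C.g q (S.h1 _)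
  obtain ⟨s0, hs0⟩ := S.can C.g C.g_pos
  refine ⟨C.g, C.g_pos, fun p => ?_⟩
  by_cases hp : S.Su (S.pt p)
  · exact ⟨S.dv C.g s, S.dv_line _ _, S.dv_supp _ _ _ fun h => hq _ ((hs _ hp).1 h)⟩
  · exact ⟨S.dv C.g s0, S.dv_line _ _, S.dv_supp _ _ _ fun h => hp ((hs0 _).1 h)⟩

/-- **Theorem.** `X` is a projective manifold of any dimension, `K_X ~ 0`, `H^1(X, O_X) = 0`, and `L`
is a nef line bundle with `L^2` numerically trivial. If a multiple of `L` has a section, or if one of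
the Euler characteristics of the multiples of `L` (for example the one of `O_X`) is not zero, then `L`
is semiample. -/
theorem Given.semiample {r : ℕ} (D : Given r) (L : D.X.P) (hL : D.X.Nef L) (hone : D.X.One L)
    (h : (∃ m : ℕ, 0 < m ∧ D.X.h 0 (m • L) ≠ 0) ∨ ∃ m : ℤ, D.X.chi (m • L) ≠ 0) :
    D.X.Semiample L := by
  obtain ⟨m, hm, hs⟩ : ∃ m : ℕ, 0 < m ∧ D.X.h 0 (m • L) ≠ 0 := by
    rcases h with h | h
    · exact h
    · exact Var.nonvanishing D.div D.coh D.cur L (D.forms L hL) hL hone h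
  obtain ⟨B, hB⟩ := (D.div.sect _).1 hs
  by_cases hB0 : B = 0
  · refine Var.Semiample.of_nsmul hm ?_
    rw [← hB, hB0, Var.line_zero]
    exact Var.semiample_zero
  by_cases hc : D.X.Conn B
  · refine Var.Semiample.of_nsmul hm ?_
    rw [← hB]
    refine (D.prog B hB0 (fun C => ?_) ?_ hc).semiample
    · rw [hB, D.div.deg_nsmul]
      exact mul_nonneg (Int.natCast_nonneg m) (hL C)
    · unfold Var.One at *
      rw [hB, D.div.rl_nsmul, D.div.form.mul, D.div.form.mul', hone, mul_zero, mul_zero]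
  · exact D.div.disconnected L hL hone m hm B hB hc

end Pool.Agent.H31.ND
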