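import Pool.Agent.H31.ND.Num
import Pool.Agent.H31.ND.Rat

namespace Pool.Agent.H31.ND

open scoped BigOperators

namespace Var

variable {r : ℕ} {X : Var r}

theorem line_zero : X.line 0 = 0 := Finsupp.sum_zero_index

theorem line_add (D D' : X.Pr →₀ ℕ) : X.line (D + D') = X.line D + X.line D' :=
  Finsupp.sum_add_index' (fun _ => zero_nsmul _) fun _ _ _ => add_nsmul _ _ _

theorem line_single (F : X.Pr) (k : ℕ) : X.line (Finsupp.single F k) = k • X.O F :=
  Finsupp.sum_single_index (zero_nsmul _)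

/-- `line` as a homomorphism -/
def lineHom (X : Var r) : (X.Pr →₀ ℕ) →+ X.P where
  toFun := X.line
  map_zero' := line_zero
  map_add' := line_add

theorem line_sum {ι : Type} (s : Finset ι) (D : ι → X.Pr →₀ ℕ) :
    X.line (∑ i ∈ s, D i) = ∑ i ∈ s, X.line (D i) := map_sum X.lineHom D s

theorem line_nsmul (k : ℕ) (D : X.Pr →₀ ℕ) : X.line (k • D) = k • X.line D :=
  map_nsmul X.lineHom k D

namespace Divisors

variable (h : X.Divisors)

include h

theorem c_zero : X.c 0 = 0 := by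
  have := h.add_c 0 0
  rw [add_zero] at this
  exact left_eq_add.1 this

theorem c_nsmul (k : ℕ) (x : X.P) : X.c (k • x) = k • X.c x :=
  map_nsmul (⟨⟨X.c, h.c_zero⟩, h.add_c⟩ : X.P →+ (Fin r → ℤ)) k x

theorem c_sub (x y : X.P) : X.c (x - y) = X.c x - X.c y :=
  map_sub (⟨⟨X.c, h.c_zero⟩, h.add_c⟩ : X.P →+ (Fin r → ℤ)) x y

theorem c_sum {ι : Type} (s : Finset ι) (x : ι → X.P) :
    X.c (∑ i ∈ s, x i) = ∑ i ∈ s, X.c (x i) :=
  map_sum (⟨⟨X.c, h.c_zero⟩, h.add_c⟩ : X.P →+ (Fin r → ℤ)) x s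

omit h in
theorem rl_zero_iff (x : X.P) : X.rl x = 0 ↔ X.c x = 0 := by
  constructor
  · intro h1
    funext i
    have := congrFun h1 i
    simpa [rl] using this
  · intro h1
    funext i
    simp [rl, h1]

theorem rl_add (x y : X.P) : X.rl (x + y) = X.rl x + X.rl y := by
  funext i
  simp [rl, h.add_c]

theorem rl_nsmul (k : ℕ) (x : X.P) : X.rl (k • x) = (k : ℝ) • X.rl x := by
  funext i
  simp [rl, h.c_nsmul]

theorem rl_zero : X.rl 0 = 0 := (rl_zero_iff 0).2 h.c_zero

/-- the class of an effective divisor is effective -/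
theorem eff_line (D : X.Pr →₀ ℕ) : X.num.Eff (X.rl (X.line D)) := by
  classical
  induction D using Finsupp.induction with
  | zero => rw [line_zero, h.rl_zero]; exact Num.Eff.zero
  | single_add F k D _ _ ih =>
    rw [line_add, h.rl_add, line_single, h.rl_nsmul, ← h.cl_eq]
    exact ((Num.Eff.cl F).smul (Nat.cast_nonneg k)).add ih

/-- a line bundle with effective class has a multiple with sections -/
theorem effective (x : X.P) (hx : X.num.Eff (X.rl x)) : ∃ m : ℕ, 0 < m ∧ X.h 0 (m • x) ≠ 0 := by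
  classical
  obtain ⟨k, F, u, hu, e⟩ := hx
  obtain ⟨q, p, hq, hp⟩ := exists_nat_comb (X.c x) (fun i => X.c (X.O (F i))) u hu (by
    intro j
    have h1 := congrFun e j
    simp only [rl, Finset.sum_apply, Pi.smul_apply, smul_eq_mul] at h1
    rw [h1]
    refine Finset.sum_congr rfl fun i _ => ?_
    rw [h.cl_eq]
    rfl)
  have h1 : X.c (q • x - ∑ i, p i • X.O (F i)) = 0 := by
    rw [h.c_sub, h.c_nsmul, h.c_sum, sub_eq_zero]
    funext j
    have := hp j
    simp only [Pi.smul_apply, nsmul_eq_mul, Finset.sum_apply, h.c_nsmul]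
    exact this
  obtain ⟨t, ht, h2⟩ := h.tors _ h1
  refine ⟨t * q, Nat.mul_pos ht hq, (h.sect _).2 ⟨∑ i, Finsupp.single (F i) (t * p i), ?_⟩⟩
  rw [line_sum]
  rw [smul_sub, sub_eq_zero] at h2
  rw [mul_smul, h2, Finset.smul_sum]
  exact Finset.sum_congr rfl fun i _ => by rw [line_single, mul_smul]

end Divisors

/-- **Step 1.** If one Euler characteristic is not zero then for some `q` infinitely many groups
`H^q(X, L^m)` are not zero. -/
theorem Coh.exists_q (H : X.Coh) (L : X.P) (hchi : ∃ m : ℤ, X.chi (m • L) ≠ 0) :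
    ∃ q, q ≤ X.n ∧ ∀ B : ℕ, ∃ m : ℕ, B < m ∧ X.h q (m • L) ≠ 0 := by
  classical
  obtain ⟨p, hp⟩ := H.snapper L
  obtain ⟨m0, hm0⟩ := hchi
  have hp0 : p ≠ 0 := by
    rintro rfl
    have := hp m0
    rw [Polynomial.eval_zero] at this
    exact hm0 (by exact_mod_cast this)
  by_contra hcon
  push Not at hcon
  choose! B hB using hcon
  -- beyond the bounds and the roots nothing is left
  let S : Finset ℚ := p.roots.toFinset
  obtain ⟨m, hm1, hm2⟩ : ∃ m : ℕ, (∀ q ∈ Finset.range (X.n + 1), B q < m) ∧ ((m : ℤ) : ℚ) ∉ S := by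
    obtain ⟨b, hb⟩ := (S.finite_toSet.preimage (f := fun m : ℕ => ((m : ℤ) : ℚ))
      (fun x _ y _ hxy => by
        have hxy' : ((x : ℤ) : ℚ) = ((y : ℤ) : ℚ) := hxy
        exact_mod_cast hxy')).bddAbove
    refine ⟨b + (∑ q ∈ Finset.range (X.n + 1), B q) + 1, fun q hq => ?_, fun hm => ?_⟩
    · have := Finset.single_le_sum (f := B) (fun i _ => Nat.zero_le _) hq
      omega
    · have := hb (show b + (∑ q ∈ Finset.range (X.n + 1), B q) + 1 ∈
        (fun m : ℕ => ((m : ℤ) : ℚ)) ⁻¹' (S : Set ℚ) from hm)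
      omega
  have h1 : p.eval ((m : ℤ) : ℚ) = 0 := by
    rw [← hp]
    have : X.chi ((m : ℤ) • L) = 0 := by
      unfold chi
      refine Finset.sum_eq_zero fun q hq => ?_
      rw [natCast_zsmul, hB q (by have := Finset.mem_range.1 hq; omega) m (hm1 q hq)]
      simp
    rw [this]
    simp
  exact hm2 (Multiset.mem_toFinset.2 ((Polynomial.mem_roots hp0).2 h1))

/-- **Step 3.** A positive current in `c_1(L)` with a positive Lelong number makes `L` effective. -/
theorem Currents.effective (C : X.Currents) (L : X.P) (hL : X.Nef L)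
    (hone : X.One L) (h0 : X.rl L ≠ 0) (T : C.Cur L) (p : X.Pt) (hp : 0 < C.nu L T p) :
    X.num.Eff (X.rl L) := by
  have hf := C.form p
  have hn := C.pull_nef p L hL
  have h2 := C.pull_one p L hL hone
  have hne : C.pull p (X.rl L) ≠ 0 := by
    intro h3
    have h4 := C.push_pull p (X.rl L)
    rw [h3] at h4
    have h5 := C.push_mul p 0 0
    rw [smul_zero, zero_smul] at h5
    exact h0 (h4.symm.trans h5)
  have hQ := C.siu p L T
  have hEn : 0 ≤ (C.bl p).f (C.pull p (X.rl L)) ((C.bl p).cl none) := hf.nef_cl _ _ hn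
  have hLQ : (C.bl p).f (C.pull p (X.rl L))
      (C.pull p (X.rl L) - C.nu L T p • (C.bl p).cl none) = 0 := by
    have h3 := (C.zariski p).nef_psef _ _ hn hQ
    rw [hf.sub', hf.mul', h2] at h3 ⊢
    have h4 := mul_nonneg hp.le hEn
    linarith
  obtain ⟨t, z, hz, e⟩ := Num.Zariski.orth hf (C.zariski p) hn h2 hne hQ hLQ
  -- `(1 - t) L' = nu E + z`
  have e1 : (1 - t) • C.pull p (X.rl L) = C.nu L T p • (C.bl p).cl none + z := by
    rw [sub_smul, one_smul, ← sub_eq_zero]
    have := sub_eq_zero.2 e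
    rw [← this]
    abel
  have hdeg := hf.deg_pos hn h2 hne
  have ht : 0 < 1 - t := by
    have h3 : (C.bl p).f (C.bl p).A ((1 - t) • C.pull p (X.rl L)) =
        C.nu L T p * (C.bl p).f (C.bl p).A ((C.bl p).cl none) + (C.bl p).f (C.bl p).A z := by
      rw [e1, hf.add', hf.mul']
    rw [hf.mul'] at h3
    have h4 := hf.eff_nonneg hf.nef_A hz
    have h5 := mul_pos hp (C.none_pos p)
    have h6 : 0 < (1 - t) * (C.bl p).f (C.bl p).A (C.pull p (X.rl L)) := by
      rw [h3]
      linarith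
    exact (pos_iff_pos_of_mul_pos h6).2 hdeg
  -- direct image
  have e2 : (1 - t) • X.rl L = C.push p z := by
    have h3 := congrArg (C.push p) e1
    rw [C.push_mul, C.push_pull, C.push_add, C.push_mul, C.push_none, smul_zero, zero_add] at h3
    exact h3
  have hz' : X.num.Eff (C.push p z) := by
    obtain ⟨k, F, u, hu, rfl⟩ := hz
    let ph : Vec (r + 1) →+ Vec r := ⟨⟨C.push p, by
      have h5 := C.push_mul p 0 0
      rwa [smul_zero, zero_smul] at h5⟩, C.push_add p⟩
    have h3 : C.push p (∑ i, u i • (C.bl p).cl (F i)) = ∑ i, C.push p (u i • (C.bl p).cl (F i)) :=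
      map_sum ph _ _
    rw [h3]
    refine Num.Eff.sum _ _ fun i _ => ?_
    rw [C.push_mul]
    cases hF : F i with
    | none => rw [C.push_none, smul_zero]; exact Num.Eff.zero
    | some F' => rw [C.push_some]; exact (Num.Eff.cl F').smul (hu i)
  have e3 : X.rl L = (1 - t)⁻¹ • C.push p z := by
    rw [← e2, smul_smul, inv_mul_cancel₀ ht.ne', one_smul]
  rw [e3]
  exact hz'.smul (inv_nonneg.2 ht.le)

/-- **Step 5.** Infinitely many multiples `M L` are the sum of an effective divisor and of one fixed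
pseudoeffective class. -/
theorem Forms.split (h : X.Divisors) {C : X.Currents} {L : X.P} (F : X.Forms C L) (p : ℕ)
    (hs : ∀ B : ℕ, ∃ (m : ℕ) (v : Fin (X.n.choose p) → F.K), B < m ∧ v ≠ 0 ∧ F.sec p m v) :
    ∃ Q, X.num.Psef Q ∧ ∀ B : ℕ, ∃ (M : ℕ) (x : Vec r), B < M ∧ X.num.Eff x ∧
      (M : ℝ) • X.rl L = x + Q := by
  classical
  let S : Set (Fin (X.n.choose p) → F.K) := {v | ∃ m : ℕ, v ≠ 0 ∧ F.sec p m v}
  refine ⟨X.rl (F.quo p (Submodule.span F.K S)), F.cp p _, fun B => ?_⟩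
  obtain ⟨m, v, hm, hv0, hv⟩ := hs B
  have hli : LinearIndepOn F.K id ({v} : Set (Fin (X.n.choose p) → F.K)) := by
    rw [linearIndepOn_singleton_iff]
    exact hv0
  have hsub : ({v} : Set (Fin (X.n.choose p) → F.K)) ⊆ S := by
    rintro _ rfl
    exact ⟨m, hv0, hv⟩
  let b := hli.extend hsub
  have hb1 : ({v} : Set _) ⊆ b := hli.subset_extend hsub
  have hb2 : b ⊆ S := hli.extend_subset hsub
  have hb3 : Submodule.span F.K b = Submodule.span F.K S := by
    refine le_antisymm (Submodule.span_mono hb2) (Submodule.span_le.2 ?_)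
    exact hli.subset_span_extend hsub
  have hb4 : LinearIndepOn F.K id b := hli.linearIndepOn_extend hsub
  have hfin : b.Finite := hb4.linearIndependent.set_finite_of_isNoetherian
  have : Finite b := hfin.to_subtype
  have := Fintype.ofFinite b
  let e := (Fintype.equivFin b).symm
  -- the indices
  have hm' : ∀ w : b, ∃ m' : ℕ, F.sec p m' w ∧ (w.1 = v → m' = m) := by
    rintro ⟨w, hw⟩
    by_cases hwv : w = v
    · subst hwv
      exact ⟨m, hv, fun _ => rfl⟩
    · obtain ⟨m', _, h2⟩ := hb2 hw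
      exact ⟨m', h2, fun h3 => absurd h3 hwv⟩
  choose mm hmm1 hmm2 using hm'
  have hw := F.wedge p (Fintype.card b) (fun i => (e i : Fin (X.n.choose p) → F.K))
    (fun i => mm (e i)) (by
      have h1 : LinearIndependent F.K ((fun x : b => (x : Fin (X.n.choose p) → F.K)) ∘ e) :=
        (linearIndependent_equiv e).2 hb4.linearIndependent
      exact h1) (fun i => hmm1 (e i))
  have hr : Set.range (fun i => (e i : Fin (X.n.choose p) → F.K)) = b := by
    ext w
    constructor
    · rintro ⟨i, rfl⟩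
      exact (e i).2
    · intro hw
      exact ⟨e.symm ⟨w, hw⟩, by simp⟩
  rw [hr, hb3] at hw
  obtain ⟨D, hD⟩ := (h.sect _).1 hw
  refine ⟨∑ i, mm (e i), X.rl (X.line D), ?_, h.eff_line D, ?_⟩
  · have h1 : mm ⟨v, hb1 rfl⟩ = m := hmm2 _ rfl
    have h2 := Finset.single_le_sum (f := fun i => mm (e i)) (fun i _ => Nat.zero_le _)
      (Finset.mem_univ (e.symm ⟨v, hb1 rfl⟩))
    simp only [Equiv.apply_symm_apply] at h2
    omega
  · rw [hD, h.rl_add, h.rl_nsmul, add_assoc, ← h.rl_add, F.add, h.rl_zero, add_zero]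

/-- **Nonvanishing** (Steps 1 to 6). -/
theorem nonvanishing (h : X.Divisors) (H : X.Coh) (C : X.Currents) (L : X.P) (F : X.Forms C L)
    (hL : X.Nef L) (hone : X.One L) (hchi : ∃ m : ℤ, X.chi (m • L) ≠ 0) :
    ∃ m : ℕ, 0 < m ∧ X.h 0 (m • L) ≠ 0 := by
  classical
  by_cases h0 : X.rl L = 0
  · obtain ⟨k, hk, e⟩ := h.tors L ((Divisors.rl_zero_iff L).1 h0)
    exact ⟨k, hk, (h.sect _).2 ⟨0, by rw [line_zero, e]⟩⟩
  refine h.effective L ?_
  obtain ⟨T⟩ := C.exist L hL
  by_cases hT : ∀ p, C.nu L T p = 0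
  · obtain ⟨q, hq, hm⟩ := H.exists_q L hchi
    obtain ⟨Q, hQ, hM⟩ := F.split h (X.n - q) (fun B => by
      obtain ⟨m, h1, h2⟩ := hm B
      obtain ⟨v, h3, h4⟩ := F.dps T hT q m hq (by omega) h2
      exact ⟨m, v, h1, h3, h4⟩)
    have hLn := (h.nef L).1 hL
    have hLQ : X.num.f (X.rl L) Q = 0 := by
      obtain ⟨M, x, _, hx, e⟩ := hM 0
      have h1 : X.num.f (X.rl L) ((M : ℝ) • X.rl L) = 0 := by
        rw [h.form.mul']
        exact mul_eq_zero_of_right _ hone
      rw [e, h.form.add'] at h1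
      have h2 := h.form.eff_nonneg hLn hx
      have h3 := h.zariski.nef_psef _ _ hLn hQ
      linarith
    obtain ⟨t, z, hz, e⟩ := Num.Zariski.orth h.form h.zariski hLn hone h0 hQ hLQ
    obtain ⟨B, hB⟩ := exists_nat_gt t
    obtain ⟨M, x, hMB, hx, e'⟩ := hM B
    have hMt : 0 < (M : ℝ) - t := by
      have : (B : ℝ) < M := by exact_mod_cast hMB
      linarith
    have e1 : ((M : ℝ) - t) • X.rl L = x + z := by
      rw [sub_smul, e', e]
      abel
    have e2 : X.rl L = ((M : ℝ) - t)⁻¹ • (x + z) := by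
      rw [← e1, smul_smul, inv_mul_cancel₀ hMt.ne', one_smul]
    rw [e2]
    exact (hx.add hz).smul (inv_nonneg.2 hMt.le)
  · push Not at hT
    obtain ⟨p, hp⟩ := hT
    exact Currents.effective C L hL hone h0 T p
      (lt_of_le_of_ne (C.nu_nonneg L T p) (Ne.symm hp))

end Var

end Pool.Agent.H31.ND
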