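import Pool.Agent.H31.ND.Defs

namespace Pool.Agent.H31.ND

open scoped BigOperators

namespace Num

variable {r : ℕ} {Pr : Type} {Y : Num r Pr}

namespace Form

variable (h : Y.Form)

include h

theorem add' (x y z : Vec r) : Y.f x (y + z) = Y.f x y + Y.f x z := by
  rw [h.symm, h.add, h.symm y, h.symm z]

theorem mul' (t : ℝ) (x y : Vec r) : Y.f x (t • y) = t * Y.f x y := by
  rw [h.symm, h.mul, h.symm]

theorem zero (x : Vec r) : Y.f 0 x = 0 := by
  have := h.mul 0 0 x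
  simpa using this

theorem zero' (x : Vec r) : Y.f x 0 = 0 := by
  rw [h.symm, h.zero]

theorem neg (x y : Vec r) : Y.f (-x) y = -Y.f x y := by
  have := h.mul (-1) x y
  simpa using this

theorem neg' (x y : Vec r) : Y.f x (-y) = -Y.f x y := by
  rw [h.symm, h.neg, h.symm]

theorem sub (x y z : Vec r) : Y.f (x - y) z = Y.f x z - Y.f y z := by
  rw [sub_eq_add_neg, h.add, h.neg, sub_eq_add_neg]

theorem sub' (x y z : Vec r) : Y.f x (y - z) = Y.f x y - Y.f x z := by
  rw [sub_eq_add_neg, h.add', h.neg', sub_eq_add_neg]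

theorem sum {ι : Type} (s : Finset ι) (x : ι → Vec r) (y : Vec r) :
    Y.f (∑ i ∈ s, x i) y = ∑ i ∈ s, Y.f (x i) y := by
  classical
  induction s using Finset.induction_on with
  | empty => simp [h.zero]
  | insert i s hi ih => rw [Finset.sum_insert hi, Finset.sum_insert hi, h.add, ih]

theorem sum' {ι : Type} (s : Finset ι) (x : Vec r) (y : ι → Vec r) :
    Y.f x (∑ i ∈ s, y i) = ∑ i ∈ s, Y.f x (y i) := by
  rw [h.symm, h.sum]
  exact Finset.sum_congr rfl fun i _ => h.symm _ _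

/-- a nonzero nef class has positive degree -/
theorem deg_pos {L : Vec r} (hL : Y.Nef L) (h2 : Y.f L L = 0) (h0 : L ≠ 0) : 0 < Y.f Y.A L := by
  rcases (h.nef_nef _ _ h.nef_A hL).lt_or_eq with h1 | h1
  · exact h1
  · exact absurd (h.index_eq L h1.symm h2) h0

/-- **Step 0.** Hodge index theorem for a nef class `L` with `L^2 = 0`. -/
theorem prop {L D : Vec r} (hL : Y.Nef L) (h2 : Y.f L L = 0) (h0 : L ≠ 0) (hD : Y.f L D = 0)
    (hDD : 0 ≤ Y.f D D) : D = (Y.f Y.A D / Y.f Y.A L) • L := by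
  have hp := h.deg_pos hL h2 h0
  have h3 : Y.f Y.A (D - (Y.f Y.A D / Y.f Y.A L) • L) = 0 := by
    rw [h.sub', h.mul']
    field_simp
    ring
  have h4 : Y.f (D - (Y.f Y.A D / Y.f Y.A L) • L) (D - (Y.f Y.A D / Y.f Y.A L) • L) = Y.f D D := by
    rw [h.sub, h.sub', h.sub', h.mul, h.mul', h.mul, h.mul', h2, hD, h.symm D L, hD]
    ring
  have h5 := h.index _ h3
  rw [h4] at h5
  have h6 := h.index_eq _ h3 (by rw [h4]; exact le_antisymm h5 hDD)
  exact sub_eq_zero.1 h6

theorem eff_nonneg {x y : Vec r} (hx : Y.Nef x) (hy : Y.Eff y) : 0 ≤ Y.f x y := by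
  obtain ⟨k, F, u, hu, rfl⟩ := hy
  rw [h.sum']
  exact Finset.sum_nonneg fun i _ => by
    rw [h.mul']
    exact mul_nonneg (hu i) (h.nef_cl _ _ hx)

end Form

theorem Eff.smul {x : Vec r} (hx : Y.Eff x) {t : ℝ} (ht : 0 ≤ t) : Y.Eff (t • x) := by
  obtain ⟨k, F, u, hu, rfl⟩ := hx
  refine ⟨k, F, fun i => t * u i, fun i => mul_nonneg ht (hu i), ?_⟩
  rw [Finset.smul_sum]
  exact Finset.sum_congr rfl fun i _ => by rw [smul_smul]

theorem Eff.add {x y : Vec r} (hx : Y.Eff x) (hy : Y.Eff y) : Y.Eff (x + y) := by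
  obtain ⟨k, F, u, hu, rfl⟩ := hx
  obtain ⟨l, F', u', hu', rfl⟩ := hy
  refine ⟨k + l, Fin.append F F', Fin.append u u', fun i => ?_, ?_⟩
  · refine Fin.addCases (fun j => ?_) (fun j => ?_) i
    · rw [Fin.append_left]
      exact hu j
    · rw [Fin.append_right]
      exact hu' j
  · rw [Fin.sum_univ_add]
    simp only [Fin.append_left, Fin.append_right]

theorem Eff.zero : Y.Eff 0 := ⟨0, Fin.elim0, Fin.elim0, fun i => i.elim0, by simp⟩

theorem Eff.cl (F : Pr) : Y.Eff (Y.cl F) :=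
  ⟨1, fun _ => F, fun _ => 1, fun _ => zero_le_one, by simp⟩

theorem Eff.sum {ι : Type} (s : Finset ι) (x : ι → Vec r) (hx : ∀ i ∈ s, Y.Eff (x i)) :
    Y.Eff (∑ i ∈ s, x i) := by
  classical
  induction s using Finset.induction_on with
  | empty => simpa using Eff.zero
  | insert i s hi ih =>
    rw [Finset.sum_insert hi]
    exact (hx i (Finset.mem_insert_self _ _)).add
      (ih fun j hj => hx j (Finset.mem_insert_of_mem hj))

/-- **Step 2.** A pseudoeffective class orthogonal to `L` is the sum of a multiple of `L` and an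
effective class. -/
theorem Zariski.orth (h : Y.Form) (hz : Y.Zariski) {L Q : Vec r} (hL : Y.Nef L)
    (h2 : Y.f L L = 0) (h0 : L ≠ 0) (hQ : Y.Psef Q) (hLQ : Y.f L Q = 0) :
    ∃ (t : ℝ) (z : Vec r), Y.Eff z ∧ Q = t • L + z := by
  obtain ⟨y, z, hy, hz', rfl⟩ := hz.dec Q hQ
  have h3 := hz.nef_psef L y hL (hz.mov_psef y hy)
  have h4 := h.eff_nonneg hL hz'
  rw [h.add'] at hLQ
  have h5 : Y.f L y = 0 := by linarith
  exact ⟨_, z, hz', by rw [← h.prop hL h2 h0 h5 (hz.mov_sq y hy)]⟩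

end Num

end Pool.Agent.H31.ND
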