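import Mathlib

namespace Pool.Agent.H31.ND

open scoped BigOperators

/-! ## Numerical classes -/

/-- `N^1(Y)` with real coefficients, `r` the Picard number. -/
abbrev Vec (r : ℕ) := Fin r → ℝ

/-- The numerical classes of divisors on a projective variety `Y` of dimension `n ≥ 2`, normal and
`ℚ`-factorial, with a fixed ample class `A`. -/
structure Num (r : ℕ) (Pr : Type) where
  /-- the intersection number `x.y.A^(n-2)` -/
  f : Vec r → Vec r → ℝ
  /-- an ample class -/
  A : Vec r
  /-- the class of a prime divisor -/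
  cl : Pr → Vec r
  /-- nef classes -/
  Nef : Vec r → Prop
  /-- pseudoeffective classes -/
  Psef : Vec r → Prop
  /-- the closure of the convex cone generated by the classes of the effective divisors which have a
  multiple without fixed components -/
  Mov : Vec r → Prop

/-- `x` is the class of an effective divisor with real coefficients -/
def Num.Eff {r : ℕ} {Pr : Type} (Y : Num r Pr) (x : Vec r) : Prop :=
  ∃ (k : ℕ) (F : Fin k → Pr) (u : Fin k → ℝ), (∀ i, 0 ≤ u i) ∧ x = ∑ i, u i • Y.cl (F i)

/-- The intersection form. -/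
structure Num.Form {r : ℕ} {Pr : Type} (Y : Num r Pr) : Prop where
  add : ∀ x y z, Y.f (x + y) z = Y.f x z + Y.f y z
  mul : ∀ (t : ℝ) x y, Y.f (t • x) y = t * Y.f x y
  symm : ∀ x y, Y.f x y = Y.f y x
  /-- Hodge index theorem -/
  index : ∀ x, Y.f Y.A x = 0 → Y.f x x ≤ 0
  /-- case of equality: on every surface which is a complete intersection of members of `|k A|` the
  class is numerically trivial -/
  index_eq : ∀ x, Y.f Y.A x = 0 → Y.f x x = 0 → x = 0
  /-- the product of a nef class and a nef or effective class has nonnegative degree -/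
  nef_cl : ∀ x F, Y.Nef x → 0 ≤ Y.f x (Y.cl F)
  nef_nef : ∀ x y, Y.Nef x → Y.Nef y → 0 ≤ Y.f x y
  nef_A : Y.Nef Y.A

/-- Pseudoeffective classes on a projective manifold. -/
structure Num.Zariski {r : ℕ} {Pr : Type} (Y : Num r Pr) : Prop where
  nef_psef : ∀ x y, Y.Nef x → Y.Psef y → 0 ≤ Y.f x y
  /-- Boucksom, Nakayama: divisorial Zariski decomposition -/
  dec : ∀ x, Y.Psef x → ∃ y z, Y.Mov y ∧ Y.Eff z ∧ x = y + z
  mov_psef : ∀ x, Y.Mov x → Y.Psef x
  /-- the restriction of a movable class to a very general complete intersection surface is nef -/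
  mov_sq : ∀ x, Y.Mov x → 0 ≤ Y.f x x

/-! ## The manifold -/

/-- A projective manifold `X` with Picard number `r`. -/
structure Var (r : ℕ) where
  /-- the Picard group -/
  P : Type
  /-- prime divisors -/
  Pr : Type
  /-- points -/
  Pt : Type
  /-- irreducible curves -/
  Cv : Type
  [grp : AddCommGroup P]
  /-- the dimension of `X` -/
  n : ℕ
  /-- the line bundle of a prime divisor -/
  O : Pr → P
  /-- the degree of a line bundle on a curve -/
  deg : Cv → P → ℤ
  /-- the point lies on the prime divisor -/
  On : Pt → Pr → Prop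
  /-- the curve lies on the prime divisor -/
  In : Cv → Pr → Prop
  /-- the dimension of `H^q(X, x)` -/
  h : ℕ → P → ℕ
  /-- the class of a line bundle in `N^1(X) = ℤ^r` -/
  c : P → Fin r → ℤ
  /-- the numerical classes with real coefficients -/
  num : Num r Pr

attribute [instance] Var.grp

namespace Var

variable {r : ℕ} (X : Var r)

/-- the class of a line bundle in `N^1(X)` with real coefficients -/
def rl (x : X.P) : Vec r := fun i => (X.c x i : ℝ)

/-- the line bundle `O_X(D)` of an effective divisor -/
def line (D : X.Pr →₀ ℕ) : X.P := D.sum fun F k => k • X.O F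

/-- nef line bundles -/
def Nef (x : X.P) : Prop := ∀ C, 0 ≤ X.deg C x

/-- semiample line bundles: for some `m ≥ 1` the linear system `|m x|` has no base points -/
def Semiample (x : X.P) : Prop :=
  ∃ m : ℕ, 0 < m ∧ ∀ p, ∃ D, X.line D = m • x ∧ ∀ F ∈ D.support, ¬ X.On p F

/-- `x^2` is numerically trivial: the numerical dimension of the nef class `x` is at most one -/
def One (x : X.P) : Prop := X.num.f (X.rl x) (X.rl x) = 0

/-- the Euler characteristic of a line bundle -/
def chi (x : X.P) : ℤ := ∑ q ∈ Finset.range (X.n + 1), (-1) ^ q * (X.h q x : ℤ)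

end Var

/-- Divisors on `X`; `H^1(X, O_X) = 0`. -/
structure Var.Divisors {r : ℕ} (X : Var r) : Prop where
  form : X.num.Form
  zariski : X.num.Zariski
  add_c : ∀ x y, X.c (x + y) = X.c x + X.c y
  /-- `H^1(X, O_X) = 0`: numerically trivial line bundles are torsion -/
  tors : ∀ x, X.c x = 0 → ∃ k : ℕ, 0 < k ∧ k • x = 0
  cl_eq : ∀ F, X.num.cl F = X.rl (X.O F)
  /-- a prime divisor has positive degree -/
  pos : ∀ F, 0 < X.num.f X.num.A (X.num.cl F)
  add_deg : ∀ C x y, X.deg C (x + y) = X.deg C x + X.deg C y
  /-- Kleiman -/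
  nef : ∀ x, X.Nef x ↔ X.num.Nef (X.rl x)
  not_in : ∀ C F, ¬ X.In C F → 0 ≤ X.deg C (X.O F)
  /-- different prime divisors meet in codimension two or not at all -/
  cl_cl : ∀ F F', F ≠ F' → 0 ≤ X.num.f (X.num.cl F) (X.num.cl F')
  disj : ∀ F F', F ≠ F' → X.num.f (X.num.cl F) (X.num.cl F') = 0 → ∀ p, X.On p F → ¬ X.On p F'
  disj_in : ∀ C F F', F ≠ F' → X.num.f (X.num.cl F) (X.num.cl F') = 0 → X.In C F →
    X.deg C (X.O F') = 0
  /-- a nonzero section has a divisor -/
  sect : ∀ x, X.h 0 x ≠ 0 ↔ ∃ D, X.line D = x

/-- Cohomology of line bundles on `X`. -/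
structure Var.Coh {r : ℕ} (X : Var r) : Prop where
  /-- Snapper, Hirzebruch: the Euler characteristic of `L^m` is a polynomial in `m` -/
  snapper : ∀ x, ∃ p : Polynomial ℚ, ∀ m : ℤ, (X.chi (m • x) : ℚ) = p.eval (m : ℚ)

/-- Closed positive currents on `X`. -/
structure Var.Currents {r : ℕ} (X : Var r) where
  /-- the closed positive currents in the class `c_1(x)` -/
  Cur : X.P → Type
  /-- Lelong numbers -/
  nu : ∀ x, Cur x → X.Pt → ℝ
  nu_nonneg : ∀ x T p, 0 ≤ nu x T p
  /-- a nef class contains a closed positive current -/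
  exist : ∀ x, X.Nef x → Nonempty (Cur x)
  /-- the blow up `X_p` of `X` in the point `p`; `none` is the exceptional divisor, `some F` is the
  strict transform of `F` -/
  bl : X.Pt → Num (r + 1) (Option X.Pr)
  /-- the pull back and the direct image of classes -/
  pull : X.Pt → Vec r → Vec (r + 1)
  push : X.Pt → Vec (r + 1) → Vec r
  form : ∀ p, (bl p).Form
  zariski : ∀ p, (bl p).Zariski
  push_add : ∀ p x y, push p (x + y) = push p x + push p y
  push_mul : ∀ p (t : ℝ) x, push p (t • x) = t • push p x
  push_pull : ∀ p x, push p (pull p x) = x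
  push_none : ∀ p, push p ((bl p).cl none) = 0
  push_some : ∀ p F, push p ((bl p).cl (some F)) = X.num.cl F
  /-- an effective nonzero divisor is not numerically trivial -/
  none_pos : ∀ p, 0 < (bl p).f (bl p).A ((bl p).cl none)
  pull_nef : ∀ p x, X.Nef x → (bl p).Nef (pull p (X.rl x))
  /-- `c_1(x)^2 = 0` in `H^4(X, ℝ)`, because the class `x` is nef (Hodge-Riemann relations) -/
  pull_one : ∀ p x, X.Nef x → X.One x → (bl p).f (pull p (X.rl x)) (pull p (X.rl x)) = 0
  /-- Siu: the pull back of `T` minus `nu` times the exceptional divisor is a positive current -/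
  siu : ∀ p x T, (bl p).Psef (pull p (X.rl x) - nu x T p • (bl p).cl none)

/-- Differential forms on `X` with values in multiples of the nef line bundle `L`. `K` is the
function field of `X`; after the choice of a rational section of `L` the sections of
`Ω^p ⊗ L^m` are vectors of `Ω^p ⊗ K = K^N`, `N = n.choose p`. -/
structure Var.Forms {r : ℕ} (X : Var r) (C : X.Currents) (L : X.P) where
  K : Type
  [fld : Field K]
  /-- the vector is the value at the generic point of a section of `Ω^p ⊗ L^m` -/
  sec : (p m : ℕ) → (Fin (X.n.choose p) → K) → Prop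
  /-- the determinants of the saturated subsheaf `F` of `Ω^p` with generic fibre `V` and of the
  quotient `Ω^p / F` -/
  sub : (p : ℕ) → Submodule K (Fin (X.n.choose p) → K) → X.P
  quo : (p : ℕ) → Submodule K (Fin (X.n.choose p) → K) → X.P
  /-- `c_1(Ω^p)` is a multiple of `K_X ~ 0` -/
  add : ∀ p V, sub p V + quo p V = 0
  /-- Campana and Paun: `K_X` is pseudoeffective, so the determinant of a torsion free quotient of
  `Ω^p` is pseudoeffective -/
  cp : ∀ p V, X.num.Psef (X.rl (quo p V))
  /-- the exterior product of linearly independent maps `L^(-m_i) → F` is a nonzero map to the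
  determinant of `F` -/
  wedge : ∀ p (k : ℕ) (v : Fin k → Fin (X.n.choose p) → K) (m : Fin k → ℕ),
    LinearIndependent K v → (∀ i, sec p (m i) (v i)) →
    X.h 0 ((∑ i, m i) • L + sub p (Submodule.span K (Set.range v))) ≠ 0
  /-- Skoda: if all the Lelong numbers are zero then all the multiplier ideals of the multiples of the
  metric are trivial; Demailly, Peternell and Schneider: hard Lefschetz theorem, with `K_X ~ 0` -/
  dps : ∀ T, (∀ p, C.nu L T p = 0) → ∀ q m : ℕ, q ≤ X.n → 0 < m → X.h q (m • L) ≠ 0 →
    ∃ v, v ≠ 0 ∧ sec (X.n - q) m v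

attribute [instance] Var.Forms.fld

end Pool.Agent.H31.ND
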